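import Mathlib
import Pool.Agent.Lib_helper20.Mon.LRC
import Pool.Agent.Lib_helper10.LogRank.Final

set_option autoImplicit false
set_option linter.unusedSectionVars false

/-! Monoids with a nonconstant-type dual number value (universality) and monoids with a root of
unity as a value (they contain the functions on powers of `Z_p`). -/

namespace Pool.Agent.H20.Mon

open Pool.Agent.Lib_helper10.LogRank
open scoped Matrix

theorem monU_rank_add {m n : Type*} [Fintype m] [Fintype n] (A B : Matrix m n ℝ) :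
    (A + B).rank ≤ A.rank + B.rank := by
  have h1 : LinearMap.range (A + B).mulVecLin ≤
      LinearMap.range A.mulVecLin ⊔ LinearMap.range B.mulVecLin := by
    rintro _ ⟨v, rfl⟩
    rw [Matrix.mulVecLin_add, LinearMap.add_apply]
    exact Submodule.add_mem_sup ⟨v, rfl⟩ ⟨v, rfl⟩
  exact (Submodule.finrank_mono h1).trans (Submodule.finrank_add_le_finrank_add_finrank _ _)

theorem monU_snd_pow (x : DualNumber ℂ) (n : ℕ) :
    (x ^ n).snd * x.fst = n * x.fst ^ n * x.snd := by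
  induction n with
  | zero => simp
  | succ n ih =>
    rw [pow_succ, TrivSqZeroExt.snd_mul, TrivSqZeroExt.fst_pow]
    simp only [smul_eq_mul, MulOpposite.smul_eq_mul_unop, MulOpposite.unop_op]
    push_cast
    rw [add_mul, ih]
    ring

section U1

variable {M : Type} [Monoid M] [Fintype M]

theorem monU_pow_eq (m : M) : ∃ a b : ℕ, a < b ∧ m ^ a = m ^ b := by
  obtain ⟨a, b, hne, he⟩ := Finite.exists_ne_map_eq_of_infinite (fun n : ℕ => m ^ n)
  rcases lt_or_gt_of_ne hne with h | h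
  · exact ⟨a, b, h, he⟩
  · exact ⟨b, a, h, he.symm⟩

/-- at an element with nonzero value there is no tangent part -/
theorem monU_snd_eq_zero (φ : M →* DualNumber ℂ) (m : M) (h : (φ m).fst ≠ 0) :
    (φ m).snd = 0 := by
  obtain ⟨a, b, hab, he⟩ := monU_pow_eq m
  have h1 : φ m ^ a = φ m ^ b := by rw [← map_pow, ← map_pow, he]
  have hf : (φ m).fst ^ a = (φ m).fst ^ b := by
    have := congrArg TrivSqZeroExt.fst h1
    simpa only [TrivSqZeroExt.fst_pow] using this
  have hs : (a : ℂ) * (φ m).fst ^ a * (φ m).snd = b * (φ m).fst ^ b * (φ m).snd := by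
    rw [← monU_snd_pow, ← monU_snd_pow, h1]
  rw [← hf] at hs
  have h2 : ((a : ℂ) - b) * ((φ m).fst ^ a * (φ m).snd) = 0 := by linear_combination hs
  rcases mul_eq_zero.1 h2 with h3 | h3
  · exfalso
    have : (a : ℂ) = b := sub_eq_zero.1 h3
    have : a = b := by exact_mod_cast this
    omega
  · rcases mul_eq_zero.1 h3 with h4 | h4
    · exact absurd h4 (pow_ne_zero _ h)
    · exact h4

open Classical in
/-- the indicator of `fst ≠ 0` -/
noncomputable def mU_nn (φ : M →* DualNumber ℂ) (m : M) : ℝ := if (φ m).fst = 0 then 0 else 1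

open Classical in
/-- the indicator of `snd ≠ 0` -/
noncomputable def mU_ss (φ : M →* DualNumber ℂ) (m : M) : ℝ := if (φ m).snd = 0 then 0 else 1

theorem mU_nn_mul (φ : M →* DualNumber ℂ) (x y : M) : mU_nn φ (x * y) = mU_nn φ x * mU_nn φ y := by
  unfold mU_nn
  rw [map_mul, TrivSqZeroExt.fst_mul]
  by_cases h1 : (φ x).fst = 0 <;> by_cases h2 : (φ y).fst = 0 <;> simp [h1, h2]

theorem mU_ss_mul (φ : M →* DualNumber ℂ) (x y : M) :
    mU_ss φ (x * y) = mU_ss φ x * mU_nn φ y + mU_nn φ x * mU_ss φ y := by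
  unfold mU_nn mU_ss
  rw [map_mul, TrivSqZeroExt.snd_mul]
  simp only [smul_eq_mul, MulOpposite.smul_eq_mul_unop, MulOpposite.unop_op]
  by_cases h1 : (φ x).fst = 0
  · by_cases h2 : (φ y).fst = 0
    · simp [h1, h2]
    · have h3 := monU_snd_eq_zero φ y h2
      by_cases h4 : (φ x).snd = 0 <;> simp [h1, h2, h3, h4]
  · have h3 := monU_snd_eq_zero φ x h1
    by_cases h2 : (φ y).snd = 0 <;> simp [h1, h2, h3]

variable {κ : Type} [Fintype κ] [DecidableEq κ]

/-- all coordinates but `p`, `q` nonzero -/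
noncomputable def mU_rr (φ : M →* DualNumber ℂ) (p q : κ) (z : κ → M) : ℝ :=
  ∏ i ∈ (Finset.univ.erase p).erase q, mU_nn φ (z i)

/-- `z p`, `z q` tangent, the other coordinates nonzero -/
noncomputable def mU_pp (φ : M →* DualNumber ℂ) (p q : κ) (z : κ → M) : ℝ :=
  mU_ss φ (z p) * mU_ss φ (z q) * mU_rr φ p q z

/-- `z p` tangent, the other coordinates nonzero -/
noncomputable def mU_uu (φ : M →* DualNumber ℂ) (p : κ) (z : κ → M) : ℝ :=
  mU_ss φ (z p) * ∏ i ∈ Finset.univ.erase p, mU_nn φ (z i)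

/-- all coordinates nonzero -/
noncomputable def mU_qq (φ : M →* DualNumber ℂ) (z : κ → M) : ℝ := ∏ i, mU_nn φ (z i)

theorem mU_rr_mul (φ : M →* DualNumber ℂ) (p q : κ) (x y : κ → M) :
    mU_rr φ p q (x * y) = mU_rr φ p q x * mU_rr φ p q y := by
  unfold mU_rr
  rw [← Finset.prod_mul_distrib]
  exact Finset.prod_congr rfl fun i _ => mU_nn_mul φ (x i) (y i)

theorem mU_uu_eq (φ : M →* DualNumber ℂ) {p q : κ} (hpq : p ≠ q) (z : κ → M) :
    mU_uu φ p z = mU_ss φ (z p) * (mU_nn φ (z q) * mU_rr φ p q z) := by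
  unfold mU_uu mU_rr
  rw [Finset.mul_prod_erase (Finset.univ.erase p) (fun i => mU_nn φ (z i))
    (Finset.mem_erase.2 ⟨hpq.symm, Finset.mem_univ _⟩)]

theorem mU_uu_eq' (φ : M →* DualNumber ℂ) {p q : κ} (hpq : p ≠ q) (z : κ → M) :
    mU_uu φ q z = mU_ss φ (z q) * (mU_nn φ (z p) * mU_rr φ p q z) := by
  rw [mU_uu_eq φ hpq.symm]
  unfold mU_rr
  rw [Finset.erase_right_comm]

theorem mU_qq_eq (φ : M →* DualNumber ℂ) {p q : κ} (hpq : p ≠ q) (z : κ → M) :
    mU_qq φ z = mU_nn φ (z p) * (mU_nn φ (z q) * mU_rr φ p q z) := by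
  unfold mU_qq mU_rr
  rw [Finset.mul_prod_erase (Finset.univ.erase p) (fun i => mU_nn φ (z i))
    (Finset.mem_erase.2 ⟨hpq.symm, Finset.mem_univ _⟩),
    Finset.mul_prod_erase Finset.univ (fun i => mU_nn φ (z i)) (Finset.mem_univ _)]

theorem mU_pp_mul (φ : M →* DualNumber ℂ) {p q : κ} (hpq : p ≠ q) (x y : κ → M) :
    mU_pp φ p q (x * y) = mU_uu φ p x * mU_uu φ q y + mU_uu φ q x * mU_uu φ p y + mU_pp φ p q x * mU_qq φ y +
      mU_qq φ x * mU_pp φ p q y := by
  rw [mU_uu_eq φ hpq x, mU_uu_eq φ hpq y, mU_uu_eq' φ hpq x, mU_uu_eq' φ hpq y, mU_qq_eq φ hpq x, mU_qq_eq φ hpq y]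
  unfold mU_pp
  rw [mU_rr_mul, Pi.mul_apply, Pi.mul_apply, mU_ss_mul, mU_ss_mul]
  ring

theorem mU_pp_eq (φ : M →* DualNumber ℂ) (p q : κ) (z : κ → M)
    (h : (φ (z p)).snd ≠ 0 ∧ (φ (z q)).snd ≠ 0 ∧ ∀ i, i ≠ p → i ≠ q → (φ (z i)).fst ≠ 0) :
    mU_pp φ p q z = 1 := by
  unfold mU_pp mU_rr mU_ss mU_nn
  rw [if_neg h.1, if_neg h.2.1, one_mul, one_mul]
  refine Finset.prod_eq_one fun i hi => ?_
  rw [Finset.mem_erase, Finset.mem_erase] at hi
  rw [if_neg (h.2.2 i hi.2.1 hi.1)]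

theorem mU_pp_ne (φ : M →* DualNumber ℂ) (p q : κ) (z : κ → M) (h : mU_pp φ p q z ≠ 0) :
    (φ (z p)).snd ≠ 0 ∧ (φ (z q)).snd ≠ 0 ∧ ∀ i, i ≠ p → i ≠ q → (φ (z i)).fst ≠ 0 := by
  unfold mU_pp mU_rr at h
  have h1 := left_ne_zero_of_mul h
  have h2 := right_ne_zero_of_mul h
  refine ⟨fun h3 => left_ne_zero_of_mul h1 ?_, fun h3 => right_ne_zero_of_mul h1 ?_,
    fun i hip hiq h3 => ?_⟩
  · unfold mU_ss; rw [if_pos h3]
  · unfold mU_ss; rw [if_pos h3]
  · rw [Finset.prod_ne_zero_iff] at h2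
    refine h2 i (Finset.mem_erase.2 ⟨hiq, Finset.mem_erase.2 ⟨hip, Finset.mem_univ _⟩⟩) ?_
    unfold mU_nn; rw [if_pos h3]

end U1

section U

variable {M : Type} [Monoid M] [Fintype M] (φ : M →* DualNumber ℂ)
variable {X Y : Type} [Fintype X] [Fintype Y] [DecidableEq X] [DecidableEq Y]

open Classical in
/-- the universal function -/
noncomputable def mU_uf (A : X → Y → Bool) (z : X ⊕ Y → M) : Bool :=
  decide (∃ a b, A a b = true ∧ mU_pp φ (Sum.inl a) (Sum.inr b) z ≠ 0)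

theorem mU_uf_eq (A : X → Y → Bool) (z : X ⊕ Y → M) :
    (if mU_uf φ A z = true then (1 : ℝ) else 0) =
      ∑ a, ∑ b, (if A a b = true then (1 : ℝ) else 0) * mU_pp φ (Sum.inl a) (Sum.inr b) z := by
  by_cases h : ∃ a b, A a b = true ∧ mU_pp φ (Sum.inl a) (Sum.inr b) z ≠ 0
  · have hu : mU_uf φ A z = true := by simp only [mU_uf, decide_eq_true_eq]; exact h
    rw [if_pos hu]
    obtain ⟨a, b, hA, hP⟩ := h
    have hP1 := mU_pp_ne φ _ _ z hP
    rw [Finset.sum_eq_single a, Finset.sum_eq_single b, if_pos hA, mU_pp_eq φ _ _ z hP1, one_mul]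
    · intro b' _ hb'
      by_contra hc
      have h2 := (mU_pp_ne φ _ _ z (right_ne_zero_of_mul hc)).2.1
      exact h2 (monU_snd_eq_zero φ _ (hP1.2.2 (Sum.inr b') (by simp) (by simpa using hb')))
    · intro hb; exact absurd (Finset.mem_univ _) hb
    · intro a' _ ha'
      refine Finset.sum_eq_zero fun b' _ => ?_
      by_contra hc
      have h2 := (mU_pp_ne φ _ _ z (right_ne_zero_of_mul hc)).1
      exact h2 (monU_snd_eq_zero φ _ (hP1.2.2 (Sum.inl a') (by simpa using ha') (by simp)))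
    · intro ha; exact absurd (Finset.mem_univ _) ha
  · have hu : ¬ mU_uf φ A z = true := by simp only [mU_uf, decide_eq_true_eq]; exact h
    rw [if_neg hu]
    symm
    refine Finset.sum_eq_zero fun a _ => Finset.sum_eq_zero fun b _ => ?_
    by_contra hc
    refine h ⟨a, b, ?_, right_ne_zero_of_mul hc⟩
    by_contra hA
    exact left_ne_zero_of_mul hc (if_neg hA)

theorem mU_uf_rank (A : X → Y → Bool) :
    realRank (fun x y : X ⊕ Y → M => mU_uf φ A (x * y)) ≤ 2 * realRank A + 2 := by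
  classical
  set K := X ⊕ Y → M
  let A' : Matrix X Y ℝ := Matrix.of fun a b => if A a b = true then (1 : ℝ) else 0
  let U : Matrix K X ℝ := Matrix.of fun z a => mU_uu φ (Sum.inl a) z
  let W : Matrix K Y ℝ := Matrix.of fun z b => mU_uu φ (Sum.inr b) z
  let p : K → ℝ := fun z => ∑ a, ∑ b, A' a b * mU_pp φ (Sum.inl a) (Sum.inr b) z
  let q : K → ℝ := fun z => mU_qq φ z
  have hmat : (Matrix.of fun (x y : K) => if mU_uf φ A (x * y) = true then (1 : ℝ) else 0) =
      U * A' * Wᵀ + W * A'ᵀ * Uᵀ + Matrix.vecMulVec p q + Matrix.vecMulVec q p := by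
    ext x y
    rw [Matrix.of_apply, mU_uf_eq φ A (x * y), Matrix.add_apply, Matrix.add_apply, Matrix.add_apply,
      Matrix.vecMulVec_apply, Matrix.vecMulVec_apply]
    have h1 : (U * A' * Wᵀ) x y =
        ∑ a, ∑ b, A' a b * (mU_uu φ (Sum.inl a) x * mU_uu φ (Sum.inr b) y) := by
      rw [Matrix.mul_assoc, Matrix.mul_apply]
      refine Finset.sum_congr rfl fun a _ => ?_
      rw [Matrix.mul_apply, Finset.mul_sum]
      refine Finset.sum_congr rfl fun b _ => ?_
      simp only [Matrix.transpose_apply, U, W, Matrix.of_apply]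
      ring
    have h2 : (W * A'ᵀ * Uᵀ) x y =
        ∑ a, ∑ b, A' a b * (mU_uu φ (Sum.inr b) x * mU_uu φ (Sum.inl a) y) := by
      rw [Matrix.mul_apply]
      refine Finset.sum_congr rfl fun a _ => ?_
      rw [Matrix.mul_apply, Finset.sum_mul]
      refine Finset.sum_congr rfl fun b _ => ?_
      simp only [Matrix.transpose_apply, U, W, Matrix.of_apply]
      ring
    rw [h1, h2]
    simp only [p, q]
    rw [Finset.sum_mul, Finset.mul_sum, ← Finset.sum_add_distrib, ← Finset.sum_add_distrib,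
      ← Finset.sum_add_distrib]
    refine Finset.sum_congr rfl fun a _ => ?_
    rw [Finset.sum_mul, Finset.mul_sum, ← Finset.sum_add_distrib, ← Finset.sum_add_distrib,
      ← Finset.sum_add_distrib]
    refine Finset.sum_congr rfl fun b _ => ?_
    rw [mU_pp_mul φ (Sum.inl_ne_inr) x y]
    simp only [A', Matrix.of_apply]
    ring
  unfold realRank
  rw [hmat]
  have hA : (Matrix.of fun (x : X) (y : Y) => if A x y = true then (1 : ℝ) else 0).rank =
      A'.rank := rfl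
  rw [hA]
  have r1 : (U * A' * Wᵀ).rank ≤ A'.rank :=
    (Matrix.rank_mul_le_left _ _).trans (Matrix.rank_mul_le_right _ _)
  have r2 : (W * A'ᵀ * Uᵀ).rank ≤ A'.rank :=
    ((Matrix.rank_mul_le_left _ _).trans (Matrix.rank_mul_le_right _ _)).trans
      (Matrix.rank_transpose A').le
  have r3 := Matrix.rank_vecMulVec_le p q
  have r4 := Matrix.rank_vecMulVec_le q p
  have a1 := monU_rank_add (U * A' * Wᵀ) (W * A'ᵀ * Uᵀ)
  have a2 := monU_rank_add (U * A' * Wᵀ + W * A'ᵀ * Uᵀ) (Matrix.vecMulVec p q)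
  have a3 := monU_rank_add (U * A' * Wᵀ + W * A'ᵀ * Uᵀ + Matrix.vecMulVec p q)
    (Matrix.vecMulVec q p)
  omega

end U

/-- (U1) a dual number value which is not a complex number: universality -/
theorem universal {M : Type} [Monoid M] [Fintype M] (φ : M →* DualNumber ℂ) (m₀ : M)
    (hm : (φ m₀).snd ≠ 0) (X Y : Type) [Fintype X] [Fintype Y] [DecidableEq X] [DecidableEq Y]
    (A : X → Y → Bool) :
    ∃ (f : (X ⊕ Y → M) → Bool) (α : X → X ⊕ Y → M) (β : Y → X ⊕ Y → M),
      (∀ a b, f (α a * β b) = A a b) ∧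
      realRank (fun x y : X ⊕ Y → M => f (x * y)) ≤ 2 * realRank A + 2 := by
  classical
  refine ⟨mU_uf φ A, fun a => Pi.mulSingle (Sum.inl a) m₀, fun b => Pi.mulSingle (Sum.inr b) m₀,
    fun a b => ?_, mU_uf_rank φ A⟩
  have hz1 : (Pi.mulSingle (Sum.inl a) m₀ * Pi.mulSingle (Sum.inr b) m₀ : X ⊕ Y → M)
      (Sum.inl a) = m₀ := by
    rw [Pi.mul_apply, Pi.mulSingle_eq_same, Pi.mulSingle_eq_of_ne (by simp), mul_one]
  have hz2 : (Pi.mulSingle (Sum.inl a) m₀ * Pi.mulSingle (Sum.inr b) m₀ : X ⊕ Y → M)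
      (Sum.inr b) = m₀ := by
    rw [Pi.mul_apply, Pi.mulSingle_eq_same, Pi.mulSingle_eq_of_ne (by simp), one_mul]
  have hz3 : ∀ i, i ≠ Sum.inl a → i ≠ Sum.inr b →
      (Pi.mulSingle (Sum.inl a) m₀ * Pi.mulSingle (Sum.inr b) m₀ : X ⊕ Y → M) i = 1 := by
    intro i h1 h2
    rw [Pi.mul_apply, Pi.mulSingle_eq_of_ne h1, Pi.mulSingle_eq_of_ne h2, mul_one]
  set z : X ⊕ Y → M := Pi.mulSingle (Sum.inl a) m₀ * Pi.mulSingle (Sum.inr b) m₀ with hz
  have h1 : ∀ i, i ≠ Sum.inl a → i ≠ Sum.inr b → (φ (z i)).snd = 0 := by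
    intro i hi1 hi2
    rw [hz3 i hi1 hi2, map_one, TrivSqZeroExt.snd_one]
  by_cases hA : A a b = true
  · rw [hA]
    simp only [mU_uf, decide_eq_true_eq]
    refine ⟨a, b, hA, ?_⟩
    rw [mU_pp_eq φ _ _ z ⟨by rw [hz1]; exact hm, by rw [hz2]; exact hm, fun i hi1 hi2 => by
      rw [hz3 i hi1 hi2, map_one, TrivSqZeroExt.fst_one]; exact one_ne_zero⟩]
    exact one_ne_zero
  · rw [Bool.not_eq_true] at hA
    rw [hA]
    simp only [mU_uf, decide_eq_false_iff_not]
    rintro ⟨a', b', hA', hP⟩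
    obtain ⟨p1, p2, -⟩ := mU_pp_ne φ _ _ z hP
    have ha : a' = a := by
      by_contra hne
      exact p1 (h1 (Sum.inl a') (by simpa using hne) (by simp))
    have hb : b' = b := by
      by_contra hne
      exact p2 (h1 (Sum.inr b') (by simp) (by simpa using hne))
    rw [ha, hb, hA] at hA'
    exact absurd hA' (by simp)


theorem monU_logb_nonneg (r : ℕ) : 0 ≤ Real.logb 2 (r : ℝ) := by
  rcases Nat.eq_zero_or_pos r with h | h
  · simp [h]
  · exact Real.logb_nonneg (by norm_num) (by exact_mod_cast h)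

theorem monU_logb_mono {r s : ℕ} (h : r ≤ s) : Real.logb 2 (r : ℝ) ≤ Real.logb 2 (s : ℝ) := by
  rcases Nat.eq_zero_or_pos r with h0 | h0
  · rw [h0]
    simpa using monU_logb_nonneg s
  · exact Real.logb_le_logb_of_le (by norm_num) (by exact_mod_cast h0) (by exact_mod_cast h)

theorem monU_bound_mono {C c : ℝ} (hC : 0 < C) (hc : 0 < c) {r s : ℕ} (h : r ≤ s) :
    C * (1 + Real.logb 2 (r : ℝ)) ^ c ≤ C * (1 + Real.logb 2 (s : ℝ)) ^ c := by
  have h1 := monU_logb_nonneg r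
  have h2 := monU_logb_mono h
  exact mul_le_mul_of_nonneg_left (Real.rpow_le_rpow (by linarith) (by linarith) hc.le) hC.le

theorem monU_bound_two {C c : ℝ} (hC : 0 < C) (hc : 0 < c) {r s : ℕ} (h : r ≤ 2 * s + 2) :
    C * (1 + Real.logb 2 (r : ℝ)) ^ c ≤ C * 3 ^ c * (1 + Real.logb 2 (s : ℝ)) ^ c := by
  have h1 := monU_logb_nonneg r
  have h2 := monU_logb_nonneg s
  have h3 : Real.logb 2 (r : ℝ) ≤ 2 + Real.logb 2 (s : ℝ) := by
    rcases Nat.eq_zero_or_pos s with h0 | h0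
    · subst h0
      have h4 : Real.logb 2 (r : ℝ) ≤ Real.logb 2 ((2 : ℕ) : ℝ) := monU_logb_mono (by omega)
      have h5 : Real.logb 2 ((2 : ℕ) : ℝ) = 1 := by
        push_cast
        exact Real.logb_self_eq_one (by norm_num)
      rw [h5] at h4
      linarith
    · have h4 : Real.logb 2 (r : ℝ) ≤ Real.logb 2 ((4 * s : ℕ) : ℝ) := monU_logb_mono (by omega)
      have h5 : Real.logb 2 ((4 * s : ℕ) : ℝ) = 2 + Real.logb 2 (s : ℝ) := by
        push_cast
        rw [Real.logb_mul (by norm_num) (by exact_mod_cast h0.ne')]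
        have : Real.logb 2 (4 : ℝ) = 2 := by
          rw [show (4 : ℝ) = 2 ^ (2 : ℕ) by norm_num, Real.logb_pow,
            Real.logb_self_eq_one (by norm_num)]
          norm_num
        rw [this]
      rw [h5] at h4
      exact h4
  have h4 : (1 + Real.logb 2 (r : ℝ)) ^ c ≤ (3 * (1 + Real.logb 2 (s : ℝ))) ^ c :=
    Real.rpow_le_rpow (by linarith) (by linarith) hc.le
  rw [Real.mul_rpow (by norm_num) (by linarith)] at h4
  calc C * (1 + Real.logb 2 (r : ℝ)) ^ c ≤ C * (3 ^ c * (1 + Real.logb 2 (s : ℝ)) ^ c) :=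
        mul_le_mul_of_nonneg_left h4 hC.le
    _ = C * 3 ^ c * (1 + Real.logb 2 (s : ℝ)) ^ c := by ring

/-- the full conjecture implies the one for every finite monoid -/
theorem logRankFor_of_logRank (M : Type) [Monoid M] [Fintype M] (h : LogRank) :
    LogRankFor M := by
  classical
  obtain ⟨C, c, hC, hc, H⟩ := h
  refine ⟨C, c, hC, hc, fun n f hf => ?_⟩
  let N := Fintype.card (Fin n → M)
  let e : (Fin n → M) ≃ Fin N := Fintype.equivFin _
  let ι : (Fin n → M) → Fin N → ZMod 2 := fun z => Pi.single (e z) 1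
  have hι : Function.Injective ι := by
    intro z w hzw
    have h1 := congrFun hzw (e z)
    simp only [ι, Pi.single_eq_same] at h1
    by_contra hne
    have h2 : e z ≠ e w := fun h => hne (e.injective h)
    rw [Pi.single_eq_of_ne h2] at h1
    exact one_ne_zero h1
  let ρ : (Fin N → ZMod 2) → Fin n → M := Function.invFun ι
  have hρ : ∀ z, ρ (ι z) = z := Function.leftInverse_invFun hι
  obtain ⟨z0, hz0⟩ := hf
  obtain ⟨π, hπ, hcost⟩ := H N (fun u v => f (ρ u * ρ v)) ⟨ι z0, ι 1, by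
    simp only [hρ, mul_one]; exact hz0⟩
  refine ⟨π.pull ι ι, fun x y => by rw [Protocol.pull_eval, hπ, hρ, hρ], ?_⟩
  rw [Protocol.pull_cost]
  refine hcost.trans (monU_bound_mono hC hc ?_)
  have h2 : (Matrix.of fun (u v : Fin N → ZMod 2) => if f (ρ u * ρ v) = true then (1 : ℝ) else 0) =
      (Matrix.of fun (x y : Fin n → M) => if f (x * y) = true then (1 : ℝ) else 0).submatrix
        ρ ρ := rfl
  unfold realRank
  rw [h2]
  exact Matrix.rank_submatrix_le _ _ _

/-- (U2) -/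
theorem univ_iff {M : Type} [Monoid M] [Fintype M] (φ : M →* DualNumber ℂ) (m₀ : M)
    (hm : (φ m₀).snd ≠ 0) : LogRankFor M ↔ LogRank := by
  classical
  refine ⟨?_, logRankFor_of_logRank M⟩
  rintro ⟨C, c, hC, hc, H⟩
  refine ⟨C * 3 ^ c, c, by positivity, hc, fun n F hF => ?_⟩
  obtain ⟨f, α, β, hf, hr⟩ := universal φ m₀ hm (Fin n → ZMod 2) (Fin n → ZMod 2) F
  let N := Fintype.card ((Fin n → ZMod 2) ⊕ (Fin n → ZMod 2))
  let e : (Fin n → ZMod 2) ⊕ (Fin n → ZMod 2) ≃ Fin N := Fintype.equivFin _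
  let g : (Fin N → M) → (Fin n → ZMod 2) ⊕ (Fin n → ZMod 2) → M := fun z i => z (e i)
  let g' : ((Fin n → ZMod 2) ⊕ (Fin n → ZMod 2) → M) → Fin N → M := fun z j => z (e.symm j)
  have hg : ∀ x y, g (g' x * g' y) = x * y := by
    intro x y
    funext i
    simp only [g, g', Pi.mul_apply, Equiv.symm_apply_apply]
  obtain ⟨x₀, y₀, h0⟩ := hF
  obtain ⟨π, hπ, hcost⟩ := H N (fun z => f (g z)) ⟨g' (α x₀) * g' (β y₀), by
    rw [hg, hf, h0]⟩
  refine ⟨π.pull (fun x => g' (α x)) (fun y => g' (β y)), fun x y => ?_, ?_⟩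
  · rw [Protocol.pull_eval, hπ, hg, hf]
  · rw [Protocol.pull_cost]
    refine hcost.trans (monU_bound_two hC hc (le_trans ?_ hr))
    have h2 : (Matrix.of fun (u v : Fin N → M) => if f (g (u * v)) = true then (1 : ℝ) else 0) =
        (Matrix.of fun (x y : (Fin n → ZMod 2) ⊕ (Fin n → ZMod 2) → M) =>
          if f (x * y) = true then (1 : ℝ) else 0).submatrix g g := rfl
    unfold realRank
    rw [h2]
    exact Matrix.rank_submatrix_le _ _ _

section root

variable {M : Type} [Monoid M] [Fintype M]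

theorem monU_exponent (χ : M →* ℂ) : ∃ k : ℕ, 0 < k ∧ ∀ m, χ m = 0 ∨ χ m ^ k = 1 := by
  have h1 : ∀ m : M, ∃ d : ℕ, 0 < d ∧ (χ m = 0 ∨ χ m ^ d = 1) := by
    intro m
    obtain ⟨a, b, hab, he⟩ := monU_pow_eq m
    refine ⟨b - a, by omega, ?_⟩
    by_cases h0 : χ m = 0
    · exact Or.inl h0
    · right
      have h2 : χ m ^ a = χ m ^ b := by rw [← map_pow, ← map_pow, he]
      have h3 : χ m ^ b = χ m ^ a * χ m ^ (b - a) := by
        rw [← pow_add]; congr 1; omega
      rw [h3] at h2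
      exact mul_left_cancel₀ (pow_ne_zero a h0) (by rw [← h2, mul_one])
  choose d hd0 hd using h1
  refine ⟨∏ m, d m, Finset.prod_pos fun m _ => hd0 m, fun m => ?_⟩
  rcases hd m with h | h
  · exact Or.inl h
  · right
    obtain ⟨j, hj⟩ := Finset.dvd_prod_of_mem d (Finset.mem_univ m)
    rw [hj, pow_mul, h, one_pow]

/-- a multiplicative map with values in `{0} ∪ μ_p` and with a value of order `p` -/
theorem monU_root (χ : M →* ℂ) (m₀ : M) (p : ℕ) [Fact p.Prime]
    (hm : IsPrimitiveRoot (χ m₀) p) :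
    ∃ (ψ : M →* ℂ) (m₁ : M), IsPrimitiveRoot (ψ m₁) p ∧ ∀ m, ψ m = 0 ∨ ψ m ^ p = 1 := by
  classical
  have hp : p.Prime := Fact.out
  have hex := monU_exponent χ
  obtain ⟨hk0, hk⟩ := Nat.find_spec hex
  set k := Nat.find hex with hkdef
  have hχ0 : χ m₀ ≠ 0 := hm.ne_zero hp.ne_zero
  have hpk : p ∣ k := hm.dvd_of_pow_eq_one k ((hk m₀).resolve_left hχ0)
  obtain ⟨j, hj⟩ := hpk
  have hj0 : 0 < j := by
    rcases Nat.eq_zero_or_pos j with h | h
    · rw [h, mul_zero] at hj; omega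
    · exact h
  have hjk : j < k := by
    rw [hj]
    have := hp.two_le
    nlinarith
  have hmin := Nat.find_min hex hjk
  push Not at hmin
  obtain ⟨m₁, h1, h2⟩ := hmin hj0
  refine ⟨(powMonoidHom j).comp χ, m₁, ?_, fun m => ?_⟩
  · have h3 : ((powMonoidHom j).comp χ) m₁ = χ m₁ ^ j := rfl
    rw [h3]
    have h4 : (χ m₁ ^ j) ^ p = 1 := by
      rw [← pow_mul, mul_comm, ← hj]
      exact (hk m₁).resolve_left h1
    have h5 : orderOf (χ m₁ ^ j) = p := orderOf_eq_prime h4 h2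
    have h6 := IsPrimitiveRoot.orderOf (χ m₁ ^ j)
    rw [h5] at h6
    exact h6
  · have h3 : ((powMonoidHom j).comp χ) m = χ m ^ j := rfl
    rw [h3]
    rcases hk m with h | h
    · left; rw [h, zero_pow hj0.ne']
    · right; rw [← pow_mul, mul_comm, ← hj, h]

/-- the powers of a root of unity -/
noncomputable def mU_ee (p : ℕ) (ζ : ℂ) (a : Multiplicative (ZMod p)) : ℂ :=
  ζ ^ (Multiplicative.toAdd a).val

theorem mU_ee_mul {p : ℕ} [Fact p.Prime] {ζ : ℂ} (hζ : IsPrimitiveRoot ζ p)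
    (a b : Multiplicative (ZMod p)) : mU_ee p ζ (a * b) = mU_ee p ζ a * mU_ee p ζ b := by
  unfold mU_ee
  rw [toAdd_mul, ZMod.val_add, ← pow_eq_pow_mod _ hζ.pow_eq_one, pow_add]

theorem mU_ee_inj {p : ℕ} [Fact p.Prime] {ζ : ℂ} (hζ : IsPrimitiveRoot ζ p)
    {a b : Multiplicative (ZMod p)} (h : mU_ee p ζ a = mU_ee p ζ b) : a = b := by
  have h1 := hζ.pow_inj (ZMod.val_lt _) (ZMod.val_lt _) h
  exact Multiplicative.toAdd.injective (ZMod.val_injective p h1)

theorem mU_ee_ne {p : ℕ} [Fact p.Prime] {ζ : ℂ} (hζ : IsPrimitiveRoot ζ p)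
    (a : Multiplicative (ZMod p)) : mU_ee p ζ a ≠ 0 :=
  pow_ne_zero _ (hζ.ne_zero (Fact.out : p.Prime).ne_zero)

theorem mU_ee_surj {p : ℕ} [Fact p.Prime] {ζ : ℂ} (hζ : IsPrimitiveRoot ζ p) {w : ℂ}
    (hw : w ^ p = 1) : ∃ a : Multiplicative (ZMod p), w = mU_ee p ζ a := by
  obtain ⟨i, hi, rfl⟩ := hζ.eq_pow_of_pow_eq_one hw
  refine ⟨Multiplicative.ofAdd (i : ZMod p), ?_⟩
  unfold mU_ee
  rw [toAdd_ofAdd, ZMod.val_natCast, Nat.mod_eq_of_lt hi]

end root

/-- (P1) a primitive `p`-th root of unity as a value -/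
theorem root {M : Type} [Monoid M] [Fintype M] (χ : M →* ℂ) (m₀ : M) (p : ℕ) [Fact p.Prime]
    (hm : IsPrimitiveRoot (χ m₀) p) (n : ℕ) (f₀ : (Fin n → Multiplicative (ZMod p)) → Bool) :
    ∃ (f : (Fin n → M) → Bool) (α : (Fin n → Multiplicative (ZMod p)) → Fin n → M),
      (∀ a b, f (α a * α b) = f₀ (a * b)) ∧
      realRank (fun x y : Fin n → M => f (x * y)) =
        realRank (fun a b : Fin n → Multiplicative (ZMod p) => f₀ (a * b)) := by
  classical
  obtain ⟨ψ, m₁, hζ, hψ⟩ := monU_root χ m₀ p hm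
  let f : (Fin n → M) → Bool := fun z => decide
    (∃ a : Fin n → Multiplicative (ZMod p), (∀ i, ψ (z i) = mU_ee p (ψ m₁) (a i)) ∧ f₀ a = true)
  let α : (Fin n → Multiplicative (ZMod p)) → Fin n → M := fun a i =>
    m₁ ^ (Multiplicative.toAdd (a i)).val
  have hα : ∀ a i, ψ (α a i) = mU_ee p (ψ m₁) (a i) := fun a i => map_pow ψ m₁ _
  -- the value at a point with a code
  have hf : ∀ (z : Fin n → M) (a : Fin n → Multiplicative (ZMod p)),
      (∀ i, ψ (z i) = mU_ee p (ψ m₁) (a i)) → f z = f₀ a := by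
    intro z a hza
    by_cases h0 : f₀ a = true
    · rw [h0]
      simp only [f, decide_eq_true_eq]
      exact ⟨a, hza, h0⟩
    · have h1 : ¬ ∃ a : Fin n → Multiplicative (ZMod p),
          (∀ i, ψ (z i) = mU_ee p (ψ m₁) (a i)) ∧ f₀ a = true := by
        rintro ⟨b, hb, hb0⟩
        have : a = b := by
          funext i
          exact mU_ee_inj hζ ((hza i).symm.trans (hb i))
        rw [← this] at hb0
        exact h0 hb0
      rw [Bool.not_eq_true] at h0
      rw [h0]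
      simp only [f, decide_eq_false_iff_not]
      exact h1
  have hαα : ∀ a b, f (α a * α b) = f₀ (a * b) := by
    intro a b
    refine hf _ _ fun i => ?_
    rw [Pi.mul_apply, map_mul, hα, hα, Pi.mul_apply, mU_ee_mul hζ]
  refine ⟨f, α, hαα, le_antisymm ?_ ?_⟩
  · -- upper bound
    have hcode : ∀ m : M, ∃ a : Multiplicative (ZMod p), ψ m ≠ 0 → ψ m = mU_ee p (ψ m₁) a := by
      intro m
      rcases hψ m with h | h
      · exact ⟨1, fun h' => absurd h h'⟩
      · obtain ⟨a, ha⟩ := mU_ee_surj hζ h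
        exact ⟨a, fun _ => ha⟩
    choose κ hκ using hcode
    let κ' : (Fin n → M) → Fin n → Multiplicative (ZMod p) := fun z i => κ (z i)
    let dd : (Fin n → M) → ℝ := fun z => if ∀ i, ψ (z i) ≠ 0 then 1 else 0
    let S : Matrix (Fin n → Multiplicative (ZMod p)) (Fin n → Multiplicative (ZMod p)) ℝ :=
      Matrix.of fun a b => if f₀ (a * b) = true then (1 : ℝ) else 0
    have h1 : (Matrix.of fun (x y : Fin n → M) => if f (x * y) = true then (1 : ℝ) else 0) =
        Matrix.diagonal dd * S.submatrix κ' κ' * Matrix.diagonal dd := by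
      ext x y
      rw [Matrix.mul_diagonal, Matrix.diagonal_mul, Matrix.of_apply, Matrix.submatrix_apply]
      by_cases hx : ∀ i, ψ (x i) ≠ 0
      · by_cases hy : ∀ i, ψ (y i) ≠ 0
        · have h2 : f (x * y) = f₀ (κ' x * κ' y) := by
            refine hf _ _ fun i => ?_
            rw [Pi.mul_apply, map_mul, hκ _ (hx i), hκ _ (hy i), Pi.mul_apply, mU_ee_mul hζ]
          simp only [dd, if_pos hx, if_pos hy, one_mul, mul_one, S, Matrix.of_apply, h2]
        · have h3 : ¬ f (x * y) = true := by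
            simp only [f, decide_eq_true_eq]
            rintro ⟨a, ha, -⟩
            refine hy fun i h0 => mU_ee_ne hζ (a i) ?_
            rw [← ha i, Pi.mul_apply, map_mul, h0, mul_zero]
          simp only [dd, if_neg hy, mul_zero, if_neg h3]
      · have h3 : ¬ f (x * y) = true := by
          simp only [f, decide_eq_true_eq]
          rintro ⟨a, ha, -⟩
          refine hx fun i h0 => mU_ee_ne hζ (a i) ?_
          rw [← ha i, Pi.mul_apply, map_mul, h0, zero_mul]
        simp only [dd, if_neg hx, zero_mul, if_neg h3]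
    unfold realRank
    rw [h1]
    refine (Matrix.rank_mul_le_left _ _).trans ((Matrix.rank_mul_le_right _ _).trans ?_)
    exact Matrix.rank_submatrix_le _ _ _
  · -- lower bound
    have h1 : (Matrix.of fun (a b : Fin n → Multiplicative (ZMod p)) =>
          if f₀ (a * b) = true then (1 : ℝ) else 0) =
        (Matrix.of fun (x y : Fin n → M) => if f (x * y) = true then (1 : ℝ) else 0).submatrix
          α α := by
      ext a b
      rw [Matrix.submatrix_apply, Matrix.of_apply, Matrix.of_apply, hαα]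
    unfold realRank
    rw [h1]
    exact Matrix.rank_submatrix_le _ _ _

/-- (P2) -/
theorem root_imp {M : Type} [Monoid M] [Fintype M] (χ : M →* ℂ) (m₀ : M) (p : ℕ) [Fact p.Prime]
    (hm : IsPrimitiveRoot (χ m₀) p) : LogRankFor M → LogRankFor (Multiplicative (ZMod p)) := by
  rintro ⟨C, c, hC, hc, H⟩
  refine ⟨C, c, hC, hc, fun n f₀ hf₀ => ?_⟩
  obtain ⟨f, α, hf, hr⟩ := root χ m₀ p hm n f₀
  obtain ⟨z₀, hz₀⟩ := hf₀
  obtain ⟨π, hπ, hcost⟩ := H n f ⟨α z₀ * α 1, by rw [hf, mul_one, hz₀]⟩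
  refine ⟨π.pull α α, fun x y => by rw [Protocol.pull_eval, hπ, hf], ?_⟩
  rw [Protocol.pull_cost, ← hr]
  exact hcost

/-- (T) three cases -/
theorem three_cases (M : Type) [Monoid M] [Fintype M] :
    (∀ (φ : M →* DualNumber ℂ) (m : M), φ m = 0 ∨ φ m = 1) ∨
    (∃ (φ : M →* DualNumber ℂ) (m : M), (φ m).snd ≠ 0) ∨
    (∃ (χ : M →* ℂ) (m : M) (p : ℕ), p.Prime ∧ IsPrimitiveRoot (χ m) p) := by
  classical
  by_cases h1 : ∀ (φ : M →* DualNumber ℂ) (m : M), φ m = 0 ∨ φ m = 1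
  · exact Or.inl h1
  · right
    push Not at h1
    obtain ⟨φ, m, h2, h3⟩ := h1
    by_cases h4 : (φ m).snd = 0
    · right
      let χ : M →* ℂ :=
        { toFun := fun m => (φ m).fst
          map_one' := by rw [map_one, TrivSqZeroExt.fst_one]
          map_mul' := fun x y => by rw [map_mul, TrivSqZeroExt.fst_mul] }
      have h5 : χ m ≠ 0 := by
        intro h6
        exact h2 (TrivSqZeroExt.ext h6 h4)
      have h6 : χ m ≠ 1 := by
        intro h7
        exact h3 (TrivSqZeroExt.ext h7 h4)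
      obtain ⟨k, hk0, hk⟩ := monU_exponent χ
      have h7 : χ m ^ k = 1 := (hk m).resolve_left h5
      have h8 : orderOf (χ m) ≠ 1 := fun h => h6 (orderOf_eq_one_iff.1 h)
      have h9 : 0 < orderOf (χ m) := orderOf_pos_iff.2 (isOfFinOrder_iff_pow_eq_one.2 ⟨k, hk0, h7⟩)
      obtain ⟨p, hp, hpd⟩ := Nat.exists_prime_and_dvd h8
      obtain ⟨j, hj⟩ := hpd
      refine ⟨χ, m ^ j, p, hp, ?_⟩
      rw [map_pow]
      have h10 := IsPrimitiveRoot.orderOf (χ m)
      exact h10.pow h9 (by rw [hj, mul_comm])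
    · exact Or.inl ⟨φ, m, h4⟩

end Pool.Agent.H20.Mon
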