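import Mathlib
import Pool.Agent.Lib_helper10.MonU.Univ
import Pool.Agent.Lib_helper20.Mon.ActDefs

set_option autoImplicit false
set_option linter.unusedSectionVars false

/-! The same for a finite monoid `M` acting on a finite set `S`: Alice holds `x` in `M ^ n`, Bob
holds `s` in `S ^ n`, the function is `h (x • s)`. -/

namespace Pool.Agent.H20.Mon

open Pool.Agent.Lib_helper10.LogRank
open scoped Matrix

/-- `v` spans a one-dimensional module of functions on `S`, on which `x` is the number `u x`, and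
`v, w` span a module on which `x` has the matrix `[[u x, u' x], [0, u x]]`. -/
structure Vis {M S : Type} [Monoid M] [MulAction M S] (u u' : M → ℂ) (v w : S → ℂ) : Prop where
  ne : ∃ s, v s ≠ 0
  hv : ∀ x s, v (x • s) = u x * v s
  hw : ∀ x s, w (x • s) = u x * w s + u' x * v s

section vis

variable {M S : Type} [Monoid M] [MulAction M S] {u u' : M → ℂ} {v w : S → ℂ}

theorem Vis.u_mul (hV : Vis u u' v w) (x y : M) : u (x * y) = u x * u y := by
  obtain ⟨s, hs⟩ := hV.ne
  have h1 := hV.hv (x * y) s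
  rw [mul_smul, hV.hv, hV.hv] at h1
  exact mul_right_cancel₀ hs (by rw [← h1]; ring)

theorem Vis.u_one (hV : Vis u u' v w) : u 1 = 1 := by
  obtain ⟨s, hs⟩ := hV.ne
  have h1 := hV.hv 1 s
  rw [one_smul] at h1
  exact mul_right_cancel₀ hs (by rw [← h1]; ring)

theorem Vis.u'_mul (hV : Vis u u' v w) (x y : M) : u' (x * y) = u x * u' y + u' x * u y := by
  obtain ⟨s, hs⟩ := hV.ne
  have h1 := hV.hw (x * y) s
  rw [mul_smul, hV.hw, hV.hw, hV.hv, hV.u_mul] at h1
  refine mul_right_cancel₀ hs ?_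
  linear_combination -h1

theorem Vis.u'_one (hV : Vis u u' v w) : u' 1 = 0 := by
  have h1 := hV.u'_mul 1 1
  rw [mul_one, hV.u_one] at h1
  linear_combination -h1

/-- the multiplicative map to the dual numbers -/
noncomputable def Vis.dual (hV : Vis u u' v w) : M →* DualNumber ℂ where
  toFun x := (TrivSqZeroExt.inl (u x) + TrivSqZeroExt.inr (u' x) : DualNumber ℂ)
  map_one' := by
    rw [hV.u_one, hV.u'_one]
    refine TrivSqZeroExt.ext ?_ ?_ <;> simp
  map_mul' x y := by
    rw [hV.u_mul, hV.u'_mul]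
    refine TrivSqZeroExt.ext ?_ ?_
    · simp
    · simp only [TrivSqZeroExt.snd_mul, TrivSqZeroExt.snd_add, TrivSqZeroExt.snd_inl,
        TrivSqZeroExt.snd_inr, TrivSqZeroExt.fst_add, TrivSqZeroExt.fst_inl, TrivSqZeroExt.fst_inr,
        smul_eq_mul, MulOpposite.smul_eq_mul_unop, MulOpposite.unop_op, zero_add, add_zero]

theorem Vis.dual_fst (hV : Vis u u' v w) (x : M) : (hV.dual x).fst = u x := by
  change (TrivSqZeroExt.inl (u x) + TrivSqZeroExt.inr (u' x) : DualNumber ℂ).fst = u x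
  simp

theorem Vis.dual_snd (hV : Vis u u' v w) (x : M) : (hV.dual x).snd = u' x := by
  change (TrivSqZeroExt.inl (u x) + TrivSqZeroExt.inr (u' x) : DualNumber ℂ).snd = u' x
  simp

open Classical in
/-- the indicator of `v ≠ 0` -/
noncomputable def aN (v : S → ℂ) (s : S) : ℝ := if v s = 0 then 0 else 1

open Classical in
/-- the indicator of `v = 0`, `w ≠ 0` -/
noncomputable def aT (v w : S → ℂ) (s : S) : ℝ := if v s = 0 ∧ w s ≠ 0 then 1 else 0

theorem aN_smul (hV : Vis u u' v w) (x : M) (s : S) :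
    aN v (x • s) = mU_nn hV.dual x * aN v s := by
  unfold aN mU_nn
  rw [hV.hv, hV.dual_fst]
  by_cases h1 : u x = 0 <;> by_cases h2 : v s = 0 <;> simp [h1, h2]

theorem aT_smul [Fintype M] (hV : Vis u u' v w) (x : M) (s : S) :
    aT v w (x • s) = mU_ss hV.dual x * aN v s + mU_nn hV.dual x * aT v w s := by
  unfold aN aT mU_nn mU_ss
  rw [hV.hv, hV.hw, hV.dual_fst, hV.dual_snd]
  by_cases h1 : u x = 0
  · by_cases h2 : u' x = 0 <;> by_cases h3 : v s = 0 <;> simp [h1, h2, h3]
  · have h3 : u' x = 0 := by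
      have := monU_snd_eq_zero hV.dual x (by rw [hV.dual_fst]; exact h1)
      rwa [hV.dual_snd] at this
    by_cases h4 : v s = 0 <;> by_cases h5 : w s = 0 <;> simp [h1, h3, h4, h5]

end vis

section prod

variable {M S : Type} [Monoid M] [Fintype M] [MulAction M S] {u u' : M → ℂ} {v w : S → ℂ}
variable {κ : Type} [Fintype κ] [DecidableEq κ]

/-- all coordinates but `p`, `q` nonzero -/
noncomputable def aR (v : S → ℂ) (p q : κ) (z : κ → S) : ℝ :=
  ∏ i ∈ (Finset.univ.erase p).erase q, aN v (z i)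

/-- `z p`, `z q` tangent, the other coordinates nonzero -/
noncomputable def aP (v w : S → ℂ) (p q : κ) (z : κ → S) : ℝ :=
  aT v w (z p) * aT v w (z q) * aR v p q z

/-- `z p` tangent, the other coordinates nonzero -/
noncomputable def aU (v w : S → ℂ) (p : κ) (z : κ → S) : ℝ :=
  aT v w (z p) * ∏ i ∈ Finset.univ.erase p, aN v (z i)

/-- all coordinates nonzero -/
noncomputable def aQ (v : S → ℂ) (z : κ → S) : ℝ := ∏ i, aN v (z i)

theorem aR_smul (hV : Vis u u' v w) (p q : κ) (x : κ → M) (s : κ → S) :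
    aR v p q (fun i => x i • s i) = mU_rr hV.dual p q x * aR v p q s := by
  unfold aR mU_rr
  rw [← Finset.prod_mul_distrib]
  exact Finset.prod_congr rfl fun i _ => aN_smul hV (x i) (s i)

theorem aU_eq {p q : κ} (hpq : p ≠ q) (z : κ → S) :
    aU v w p z = aT v w (z p) * (aN v (z q) * aR v p q z) := by
  unfold aU aR
  rw [Finset.mul_prod_erase (Finset.univ.erase p) (fun i => aN v (z i))
    (Finset.mem_erase.2 ⟨hpq.symm, Finset.mem_univ _⟩)]

theorem aU_eq' {p q : κ} (hpq : p ≠ q) (z : κ → S) :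
    aU v w q z = aT v w (z q) * (aN v (z p) * aR v p q z) := by
  rw [aU_eq hpq.symm]
  unfold aR
  rw [Finset.erase_right_comm]

theorem aQ_eq {p q : κ} (hpq : p ≠ q) (z : κ → S) :
    aQ v z = aN v (z p) * (aN v (z q) * aR v p q z) := by
  unfold aQ aR
  rw [Finset.mul_prod_erase (Finset.univ.erase p) (fun i => aN v (z i))
    (Finset.mem_erase.2 ⟨hpq.symm, Finset.mem_univ _⟩),
    Finset.mul_prod_erase Finset.univ (fun i => aN v (z i)) (Finset.mem_univ _)]

theorem aP_smul (hV : Vis u u' v w) {p q : κ} (hpq : p ≠ q) (x : κ → M) (s : κ → S) :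
    aP v w p q (fun i => x i • s i) = mU_uu hV.dual p x * aU v w q s +
      mU_uu hV.dual q x * aU v w p s + mU_pp hV.dual p q x * aQ v s +
      mU_qq hV.dual x * aP v w p q s := by
  rw [mU_uu_eq hV.dual hpq x, aU_eq hpq s, mU_uu_eq' hV.dual hpq x, aU_eq' hpq s,
    mU_qq_eq hV.dual hpq x, aQ_eq hpq s]
  unfold aP mU_pp
  rw [aR_smul hV, aT_smul hV, aT_smul hV]
  ring

theorem aP_eq (p q : κ) (z : κ → S)
    (h : (v (z p) = 0 ∧ w (z p) ≠ 0) ∧ (v (z q) = 0 ∧ w (z q) ≠ 0) ∧
      ∀ i, i ≠ p → i ≠ q → v (z i) ≠ 0) :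
    aP v w p q z = 1 := by
  unfold aP aR aT aN
  rw [if_pos h.1, if_pos h.2.1, one_mul, one_mul]
  refine Finset.prod_eq_one fun i hi => ?_
  rw [Finset.mem_erase, Finset.mem_erase] at hi
  rw [if_neg (h.2.2 i hi.2.1 hi.1)]

theorem aP_ne (p q : κ) (z : κ → S) (h : aP v w p q z ≠ 0) :
    (v (z p) = 0 ∧ w (z p) ≠ 0) ∧ (v (z q) = 0 ∧ w (z q) ≠ 0) ∧
      ∀ i, i ≠ p → i ≠ q → v (z i) ≠ 0 := by
  unfold aP aR at h
  have h1 := left_ne_zero_of_mul h
  have h2 := right_ne_zero_of_mul h
  refine ⟨?_, ?_, fun i hip hiq h3 => ?_⟩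
  · by_contra h3
    exact left_ne_zero_of_mul h1 (by unfold aT; rw [if_neg h3])
  · by_contra h3
    exact right_ne_zero_of_mul h1 (by unfold aT; rw [if_neg h3])
  · rw [Finset.prod_ne_zero_iff] at h2
    refine h2 i (Finset.mem_erase.2 ⟨hiq, Finset.mem_erase.2 ⟨hip, Finset.mem_univ _⟩⟩) ?_
    unfold aN; rw [if_pos h3]

end prod

section U

variable {M S : Type} [Monoid M] [Fintype M] [Fintype S] [MulAction M S]
  {u u' : M → ℂ} {v w : S → ℂ}
variable {X Y : Type} [Fintype X] [Fintype Y] [DecidableEq X] [DecidableEq Y]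

open Classical in
/-- the universal function -/
noncomputable def aF (v w : S → ℂ) (A : X → Y → Bool) (z : X ⊕ Y → S) : Bool :=
  decide (∃ a b, A a b = true ∧ aP v w (Sum.inl a) (Sum.inr b) z ≠ 0)

theorem aF_eq (v w : S → ℂ) (A : X → Y → Bool) (z : X ⊕ Y → S) :
    (if aF v w A z = true then (1 : ℝ) else 0) =
      ∑ a, ∑ b, (if A a b = true then (1 : ℝ) else 0) * aP v w (Sum.inl a) (Sum.inr b) z := by
  by_cases h : ∃ a b, A a b = true ∧ aP v w (Sum.inl a) (Sum.inr b) z ≠ 0
  · have hu : aF v w A z = true := by simp only [aF, decide_eq_true_eq]; exact h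
    rw [if_pos hu]
    obtain ⟨a, b, hA, hP⟩ := h
    have hP1 := aP_ne _ _ z hP
    rw [Finset.sum_eq_single a, Finset.sum_eq_single b, if_pos hA, aP_eq _ _ z hP1, one_mul]
    · intro b' _ hb'
      by_contra hc
      have h2 := (aP_ne _ _ z (right_ne_zero_of_mul hc)).2.1.1
      exact hP1.2.2 (Sum.inr b') (by simp) (by simpa using hb') h2
    · intro hb; exact absurd (Finset.mem_univ _) hb
    · intro a' _ ha'
      refine Finset.sum_eq_zero fun b' _ => ?_
      by_contra hc
      have h2 := (aP_ne _ _ z (right_ne_zero_of_mul hc)).1.1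
      exact hP1.2.2 (Sum.inl a') (by simpa using ha') (by simp) h2
    · intro ha; exact absurd (Finset.mem_univ _) ha
  · have hu : ¬ aF v w A z = true := by simp only [aF, decide_eq_true_eq]; exact h
    rw [if_neg hu]
    symm
    refine Finset.sum_eq_zero fun a _ => Finset.sum_eq_zero fun b _ => ?_
    by_contra hc
    refine h ⟨a, b, ?_, right_ne_zero_of_mul hc⟩
    by_contra hA
    exact left_ne_zero_of_mul hc (if_neg hA)

theorem aF_rank (hV : Vis u u' v w) (A : X → Y → Bool) :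
    realRank (fun (x : X ⊕ Y → M) (s : X ⊕ Y → S) => aF v w A (fun i => x i • s i)) ≤
      2 * realRank A + 2 := by
  classical
  set K := X ⊕ Y → M
  set L := X ⊕ Y → S
  let A' : Matrix X Y ℝ := Matrix.of fun a b => if A a b = true then (1 : ℝ) else 0
  let U : Matrix K X ℝ := Matrix.of fun z a => mU_uu hV.dual (Sum.inl a) z
  let W : Matrix K Y ℝ := Matrix.of fun z b => mU_uu hV.dual (Sum.inr b) z
  let U' : Matrix L X ℝ := Matrix.of fun z a => aU v w (Sum.inl a) z
  let W' : Matrix L Y ℝ := Matrix.of fun z b => aU v w (Sum.inr b) z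
  let p : K → ℝ := fun z => ∑ a, ∑ b, A' a b * mU_pp hV.dual (Sum.inl a) (Sum.inr b) z
  let q : K → ℝ := fun z => mU_qq hV.dual z
  let p' : L → ℝ := fun z => ∑ a, ∑ b, A' a b * aP v w (Sum.inl a) (Sum.inr b) z
  let q' : L → ℝ := fun z => aQ v z
  have hmat : (Matrix.of fun (x : K) (s : L) =>
      if aF v w A (fun i => x i • s i) = true then (1 : ℝ) else 0) =
      U * A' * W'ᵀ + W * A'ᵀ * U'ᵀ + Matrix.vecMulVec p q' + Matrix.vecMulVec q p' := by
    ext x y
    rw [Matrix.of_apply, aF_eq, Matrix.add_apply, Matrix.add_apply, Matrix.add_apply,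
      Matrix.vecMulVec_apply, Matrix.vecMulVec_apply]
    have h1 : (U * A' * W'ᵀ) x y =
        ∑ a, ∑ b, A' a b * (mU_uu hV.dual (Sum.inl a) x * aU v w (Sum.inr b) y) := by
      rw [Matrix.mul_assoc, Matrix.mul_apply]
      refine Finset.sum_congr rfl fun a _ => ?_
      rw [Matrix.mul_apply, Finset.mul_sum]
      refine Finset.sum_congr rfl fun b _ => ?_
      simp only [Matrix.transpose_apply, U, W', Matrix.of_apply]
      ring
    have h2 : (W * A'ᵀ * U'ᵀ) x y =
        ∑ a, ∑ b, A' a b * (mU_uu hV.dual (Sum.inr b) x * aU v w (Sum.inl a) y) := by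
      rw [Matrix.mul_apply]
      refine Finset.sum_congr rfl fun a _ => ?_
      rw [Matrix.mul_apply, Finset.sum_mul]
      refine Finset.sum_congr rfl fun b _ => ?_
      simp only [Matrix.transpose_apply, U', W, Matrix.of_apply]
      ring
    rw [h1, h2]
    simp only [p, q, p', q']
    rw [Finset.sum_mul, Finset.mul_sum, ← Finset.sum_add_distrib, ← Finset.sum_add_distrib,
      ← Finset.sum_add_distrib]
    refine Finset.sum_congr rfl fun a _ => ?_
    rw [Finset.sum_mul, Finset.mul_sum, ← Finset.sum_add_distrib, ← Finset.sum_add_distrib,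
      ← Finset.sum_add_distrib]
    refine Finset.sum_congr rfl fun b _ => ?_
    rw [aP_smul hV (Sum.inl_ne_inr) x y]
    simp only [A', Matrix.of_apply]
    ring
  unfold realRank
  rw [hmat]
  have hA : (Matrix.of fun (x : X) (y : Y) => if A x y = true then (1 : ℝ) else 0).rank =
      A'.rank := rfl
  rw [hA]
  have r1 : (U * A' * W'ᵀ).rank ≤ A'.rank :=
    (Matrix.rank_mul_le_left _ _).trans (Matrix.rank_mul_le_right _ _)
  have r2 : (W * A'ᵀ * U'ᵀ).rank ≤ A'.rank :=
    ((Matrix.rank_mul_le_left _ _).trans (Matrix.rank_mul_le_right _ _)).trans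
      (Matrix.rank_transpose A').le
  have r3 := Matrix.rank_vecMulVec_le p q'
  have r4 := Matrix.rank_vecMulVec_le q p'
  have a1 := monU_rank_add (U * A' * W'ᵀ) (W * A'ᵀ * U'ᵀ)
  have a2 := monU_rank_add (U * A' * W'ᵀ + W * A'ᵀ * U'ᵀ) (Matrix.vecMulVec p q')
  have a3 := monU_rank_add (U * A' * W'ᵀ + W * A'ᵀ * U'ᵀ + Matrix.vecMulVec p q')
    (Matrix.vecMulVec q p')
  omega

end U

/-- (U1 for actions) -/
theorem universal_act {M S : Type} [Monoid M] [Fintype M] [Fintype S] [MulAction M S]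
    {u u' : M → ℂ} {v w : S → ℂ} (hV : Vis u u' v w) (m₀ : M) (hm : u' m₀ ≠ 0)
    (X Y : Type) [Fintype X] [Fintype Y] [DecidableEq X] [DecidableEq Y] (A : X → Y → Bool) :
    ∃ (h : (X ⊕ Y → S) → Bool) (α : X → X ⊕ Y → M) (β : Y → X ⊕ Y → S),
      (∀ a b, h (fun i => α a i • β b i) = A a b) ∧
      realRank (fun (x : X ⊕ Y → M) (s : X ⊕ Y → S) => h (fun i => x i • s i)) ≤
        2 * realRank A + 2 := by
  classical
  obtain ⟨s₀, hs₀⟩ := hV.ne
  have hu0 : u m₀ = 0 := by
    by_contra h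
    have := monU_snd_eq_zero hV.dual m₀ (by rw [hV.dual_fst]; exact h)
    rw [hV.dual_snd] at this
    exact hm this
  have ht1 : v (m₀ • s₀) = 0 := by rw [hV.hv, hu0, zero_mul]
  have ht2 : w (m₀ • s₀) ≠ 0 := by
    rw [hV.hw, hu0, zero_mul, zero_add]
    exact mul_ne_zero hm hs₀
  refine ⟨aF v w A, fun a => Pi.mulSingle (Sum.inl a) m₀,
    fun b => Function.update (fun _ => s₀) (Sum.inr b) (m₀ • s₀), fun a b => ?_, aF_rank hV A⟩
  set z : X ⊕ Y → S := fun i => (Pi.mulSingle (Sum.inl a) m₀ : X ⊕ Y → M) i •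
    Function.update (fun _ => s₀) (Sum.inr b) (m₀ • s₀) i with hz
  have hz1 : z (Sum.inl a) = m₀ • s₀ := by
    simp only [hz]
    rw [Pi.mulSingle_eq_same, Function.update_of_ne (by simp)]
  have hz2 : z (Sum.inr b) = m₀ • s₀ := by
    simp only [hz]
    rw [Pi.mulSingle_eq_of_ne (by simp), Function.update_self, one_smul]
  have hz3 : ∀ i, i ≠ Sum.inl a → i ≠ Sum.inr b → z i = s₀ := by
    intro i h1 h2
    simp only [hz]
    rw [Pi.mulSingle_eq_of_ne h1, Function.update_of_ne h2, one_smul]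
  by_cases hA : A a b = true
  · rw [hA]
    simp only [aF, decide_eq_true_eq]
    refine ⟨a, b, hA, ?_⟩
    rw [aP_eq _ _ z ⟨by rw [hz1]; exact ⟨ht1, ht2⟩, by rw [hz2]; exact ⟨ht1, ht2⟩,
      fun i hi1 hi2 => by rw [hz3 i hi1 hi2]; exact hs₀⟩]
    exact one_ne_zero
  · rw [Bool.not_eq_true] at hA
    rw [hA]
    simp only [aF, decide_eq_false_iff_not]
    rintro ⟨a', b', hA', hP⟩
    obtain ⟨p1, p2, -⟩ := aP_ne _ _ z hP
    have ha : a' = a := by
      by_contra hne
      have h2 := hz3 (Sum.inl a') (by simpa using hne) (by simp)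
      rw [h2] at p1
      exact hs₀ p1.1
    have hb : b' = b := by
      by_contra hne
      have h2 := hz3 (Sum.inr b') (by simp) (by simpa using hne)
      rw [h2] at p2
      exact hs₀ p2.1
    rw [ha, hb, hA] at hA'
    exact absurd hA' (by simp)

/-- the full conjecture implies the one for every action -/
theorem logRankAct_of_logRank (M S : Type) [Monoid M] [Fintype M] [Fintype S] [MulAction M S]
    (h : LogRank) : LogRankAct M S := by
  classical
  obtain ⟨C, c, hC, hc, H⟩ := h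
  refine ⟨C, c, hC, hc, fun n f hf => ?_⟩
  let N := Fintype.card ((Fin n → M) ⊕ (Fin n → S))
  let e : (Fin n → M) ⊕ (Fin n → S) ≃ Fin N := Fintype.equivFin _
  let ι : (Fin n → M) ⊕ (Fin n → S) → Fin N → ZMod 2 := fun z => Pi.single (e z) 1
  have hι : Function.Injective ι := by
    intro z w hzw
    have h1 := congrFun hzw (e z)
    simp only [ι, Pi.single_eq_same] at h1
    by_contra hne
    have h2 : e z ≠ e w := fun h => hne (e.injective h)
    rw [Pi.single_eq_of_ne h2] at h1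
    exact one_ne_zero h1
  obtain ⟨z0, hz0⟩ := hf
  let ρ : (Fin N → ZMod 2) → Fin n → M := fun t =>
    Sum.elim id (fun _ => 1) (Function.invFun ι t)
  let σ : (Fin N → ZMod 2) → Fin n → S := fun t =>
    Sum.elim (fun _ => z0) id (Function.invFun ι t)
  have : Nonempty ((Fin n → M) ⊕ (Fin n → S)) := ⟨Sum.inr z0⟩
  have hinv : ∀ z, Function.invFun ι (ι z) = z := Function.leftInverse_invFun hι
  have hρ : ∀ x, ρ (ι (Sum.inl x)) = x := fun x => by simp only [ρ, hinv, Sum.elim_inl, id]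
  have hσ : ∀ s, σ (ι (Sum.inr s)) = s := fun s => by simp only [σ, hinv, Sum.elim_inr, id]
  obtain ⟨π, hπ, hcost⟩ := H N (fun a b => f (fun i => ρ a i • σ b i))
    ⟨ι (Sum.inl 1), ι (Sum.inr z0), by simp only [hρ, hσ, Pi.one_apply, one_smul]; exact hz0⟩
  refine ⟨π.pull (fun x => ι (Sum.inl x)) (fun s => ι (Sum.inr s)), fun x y => by
    rw [Protocol.pull_eval, hπ, hρ, hσ], ?_⟩
  rw [Protocol.pull_cost]
  refine hcost.trans (monU_bound_mono hC hc ?_)
  have h2 : (Matrix.of fun (a b : Fin N → ZMod 2) =>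
        if f (fun i => ρ a i • σ b i) = true then (1 : ℝ) else 0) =
      (Matrix.of fun (x : Fin n → M) (s : Fin n → S) =>
        if f (fun i => x i • s i) = true then (1 : ℝ) else 0).submatrix ρ σ := rfl
  unfold realRank
  rw [h2]
  exact Matrix.rank_submatrix_le _ _ _

/-- (U2 for actions) -/
theorem univ_iff_act {M S : Type} [Monoid M] [Fintype M] [Fintype S] [MulAction M S]
    {u u' : M → ℂ} {v w : S → ℂ} (hV : Vis u u' v w) (m₀ : M) (hm : u' m₀ ≠ 0) :
    LogRankAct M S ↔ LogRank := by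
  classical
  refine ⟨?_, logRankAct_of_logRank M S⟩
  rintro ⟨C, c, hC, hc, H⟩
  refine ⟨C * 3 ^ c, c, by positivity, hc, fun n F hF => ?_⟩
  obtain ⟨f, α, β, hf, hr⟩ := universal_act hV m₀ hm (Fin n → ZMod 2) (Fin n → ZMod 2) F
  let N := Fintype.card ((Fin n → ZMod 2) ⊕ (Fin n → ZMod 2))
  let e : (Fin n → ZMod 2) ⊕ (Fin n → ZMod 2) ≃ Fin N := Fintype.equivFin _
  obtain ⟨x₀, y₀, h0⟩ := hF
  obtain ⟨π, hπ, hcost⟩ := H N (fun z => f (fun i => z (e i)))
    ⟨fun j => α x₀ (e.symm j) • β y₀ (e.symm j), by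
      simp only [Equiv.symm_apply_apply]
      rw [hf, h0]⟩
  refine ⟨π.pull (fun x j => α x (e.symm j)) (fun y j => β y (e.symm j)), fun x y => ?_, ?_⟩
  · rw [Protocol.pull_eval, hπ]
    simp only [Equiv.symm_apply_apply]
    exact hf x y
  · rw [Protocol.pull_cost]
    refine hcost.trans (monU_bound_two hC hc (le_trans ?_ hr))
    have h2 : (Matrix.of fun (a : Fin N → M) (b : Fin N → S) =>
          if f (fun i => a (e i) • b (e i)) = true then (1 : ℝ) else 0) =
        (Matrix.of fun (x : (Fin n → ZMod 2) ⊕ (Fin n → ZMod 2) → M)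
          (s : (Fin n → ZMod 2) ⊕ (Fin n → ZMod 2) → S) =>
          if f (fun i => x i • s i) = true then (1 : ℝ) else 0).submatrix
          (fun z i => z (e i)) (fun z i => z (e i)) := rfl
    unfold realRank
    rw [h2]
    exact Matrix.rank_submatrix_le _ _ _

/-- (P1 for actions) a visible root of unity -/
theorem root_act {M S : Type} [Monoid M] [Fintype M] [Fintype S] [MulAction M S]
    {u u' : M → ℂ} {v w : S → ℂ} (hV : Vis u u' v w) (m₀ : M) (p : ℕ) [Fact p.Prime]
    (hm : IsPrimitiveRoot (u m₀) p) (n : ℕ) (f₀ : (Fin n → Multiplicative (ZMod p)) → Bool) :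
    ∃ (h : (Fin n → S) → Bool) (α : (Fin n → Multiplicative (ZMod p)) → Fin n → M)
      (β : (Fin n → Multiplicative (ZMod p)) → Fin n → S),
      (∀ a b, h (fun i => α a i • β b i) = f₀ (a * b)) ∧
      realRank (fun (x : Fin n → M) (s : Fin n → S) => h (fun i => x i • s i)) =
        realRank (fun a b : Fin n → Multiplicative (ZMod p) => f₀ (a * b)) := by
  classical
  let χ : M →* ℂ := { toFun := u, map_one' := hV.u_one, map_mul' := hV.u_mul }
  have hp : p.Prime := Fact.out
  have hex := monU_exponent χ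
  obtain ⟨hk0, hk⟩ := Nat.find_spec hex
  set k := Nat.find hex with hkdef
  have hχ0 : χ m₀ ≠ 0 := hm.ne_zero hp.ne_zero
  have hpk : p ∣ k := hm.dvd_of_pow_eq_one k ((hk m₀).resolve_left hχ0)
  obtain ⟨j, hj⟩ := hpk
  have hj0 : 0 < j := by
    rcases Nat.eq_zero_or_pos j with h | h
    · rw [h, mul_zero] at hj; omega
    · exact h
  have hjk : j < k := by
    rw [hj]
    have := hp.two_le
    nlinarith
  have hmin := Nat.find_min hex hjk
  push Not at hmin
  obtain ⟨m₁, h1, h2⟩ := hmin hj0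
  set ζ : ℂ := u m₁ ^ j with hζdef
  have hζ : IsPrimitiveRoot ζ p := by
    have h4 : (u m₁ ^ j) ^ p = 1 := by
      rw [← pow_mul, mul_comm, ← hj]
      exact (hk m₁).resolve_left h1
    have h5 : orderOf (u m₁ ^ j) = p := orderOf_eq_prime h4 h2
    have h6 := IsPrimitiveRoot.orderOf (u m₁ ^ j)
    rw [h5] at h6
    exact h6
  have huj : ∀ m, u m ≠ 0 → (u m ^ j) ^ p = 1 := fun m hm0 => by
    rw [← pow_mul, mul_comm, ← hj]
    exact (hk m).resolve_left hm0
  obtain ⟨s₀, hs₀⟩ := hV.ne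
  set V : S → ℂ := fun s => v s ^ j with hVdef
  have hVm : ∀ x s, V (x • s) = u x ^ j * V s := fun x s => by
    simp only [hVdef]
    rw [hV.hv, mul_pow]
  have hV0 : V s₀ ≠ 0 := pow_ne_zero _ hs₀
  let f : (Fin n → S) → Bool := fun z => decide
    (∃ a : Fin n → Multiplicative (ZMod p), (∀ i, V (z i) = V s₀ * mU_ee p ζ (a i)) ∧
      f₀ a = true)
  let α : (Fin n → Multiplicative (ZMod p)) → Fin n → M := fun a i =>
    m₁ ^ (Multiplicative.toAdd (a i)).val
  have hupow : ∀ (m : M) (l : ℕ), u (m ^ l) = u m ^ l := fun m l => map_pow χ m l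
  have hα : ∀ a i, u (α a i) ^ j = mU_ee p ζ (a i) := fun a i => by
    simp only [α, mU_ee, hupow, hζdef, ← pow_mul, mul_comm]
  -- the value at a point with a code
  have hf : ∀ (z : Fin n → S) (a : Fin n → Multiplicative (ZMod p)),
      (∀ i, V (z i) = V s₀ * mU_ee p ζ (a i)) → f z = f₀ a := by
    intro z a hza
    by_cases h0 : f₀ a = true
    · rw [h0]
      simp only [f, decide_eq_true_eq]
      exact ⟨a, hza, h0⟩
    · have h1 : ¬ ∃ a : Fin n → Multiplicative (ZMod p),
          (∀ i, V (z i) = V s₀ * mU_ee p ζ (a i)) ∧ f₀ a = true := by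
        rintro ⟨b, hb, hb0⟩
        have : a = b := by
          funext i
          exact mU_ee_inj hζ (mul_left_cancel₀ hV0 ((hza i).symm.trans (hb i)))
        rw [← this] at hb0
        exact h0 hb0
      rw [Bool.not_eq_true] at h0
      rw [h0]
      simp only [f, decide_eq_false_iff_not]
      exact h1
  let β : (Fin n → Multiplicative (ZMod p)) → Fin n → S := fun b i => α b i • s₀
  have hβ : ∀ b i, V (β b i) = V s₀ * mU_ee p ζ (b i) := fun b i => by
    simp only [β]
    rw [hVm, hα]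
    ring
  have hαβ : ∀ a b, f (fun i => α a i • β b i) = f₀ (a * b) := by
    intro a b
    refine hf _ _ fun i => ?_
    rw [hVm, hα, hβ, Pi.mul_apply, mU_ee_mul hζ]
    ring
  refine ⟨f, α, β, hαβ, le_antisymm ?_ ?_⟩
  · -- upper bound
    have hcodeM : ∀ m : M, ∃ a : Multiplicative (ZMod p), u m ≠ 0 → u m ^ j = mU_ee p ζ a := by
      intro m
      by_cases h : u m = 0
      · exact ⟨1, fun h' => absurd h h'⟩
      · obtain ⟨a, ha⟩ := mU_ee_surj hζ (huj m h)
        exact ⟨a, fun _ => ha⟩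
    choose κ hκ using hcodeM
    let Gd : S → Prop := fun s => ∃ a : Multiplicative (ZMod p), V s = V s₀ * mU_ee p ζ a
    have hcodeS : ∀ s : S, ∃ a : Multiplicative (ZMod p), Gd s → V s = V s₀ * mU_ee p ζ a := by
      intro s
      by_cases h : Gd s
      · obtain ⟨a, ha⟩ := h
        exact ⟨a, fun _ => ha⟩
      · exact ⟨1, fun h' => absurd h' h⟩
    choose τ hτ using hcodeS
    have hGd : ∀ x s, u x ≠ 0 → Gd (x • s) → Gd s := by
      rintro x s hx ⟨a, ha⟩
      rw [hVm, hκ x hx] at ha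
      refine ⟨a * (κ x)⁻¹, ?_⟩
      have h3 : mU_ee p ζ (κ x) * mU_ee p ζ (a * (κ x)⁻¹) = mU_ee p ζ a := by
        rw [← mU_ee_mul hζ]
        congr 1
        rw [mul_comm a, ← mul_assoc, mul_inv_cancel, one_mul]
      refine mul_left_cancel₀ (mU_ee_ne hζ (κ x)) ?_
      rw [ha, ← h3]
      ring
    let κ' : (Fin n → M) → Fin n → Multiplicative (ZMod p) := fun z i => κ (z i)
    let τ' : (Fin n → S) → Fin n → Multiplicative (ZMod p) := fun z i => τ (z i)
    let dd : (Fin n → M) → ℝ := fun z => if ∀ i, u (z i) ≠ 0 then 1 else 0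
    let dd' : (Fin n → S) → ℝ := fun z => if ∀ i, Gd (z i) then 1 else 0
    let T : Matrix (Fin n → Multiplicative (ZMod p)) (Fin n → Multiplicative (ZMod p)) ℝ :=
      Matrix.of fun a b => if f₀ (a * b) = true then (1 : ℝ) else 0
    have h1 : (Matrix.of fun (x : Fin n → M) (s : Fin n → S) =>
          if f (fun i => x i • s i) = true then (1 : ℝ) else 0) =
        Matrix.diagonal dd * T.submatrix κ' τ' * Matrix.diagonal dd' := by
      ext x y
      rw [Matrix.mul_diagonal, Matrix.diagonal_mul, Matrix.of_apply, Matrix.submatrix_apply]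
      by_cases hx : ∀ i, u (x i) ≠ 0
      · by_cases hy : ∀ i, Gd (y i)
        · have h2 : f (fun i => x i • y i) = f₀ (κ' x * τ' y) := by
            refine hf _ _ fun i => ?_
            rw [hVm, hκ _ (hx i), hτ _ (hy i), Pi.mul_apply, mU_ee_mul hζ]
            ring
          simp only [dd, dd', if_pos hx, if_pos hy, one_mul, mul_one, T, Matrix.of_apply, h2]
        · have h3 : ¬ f (fun i => x i • y i) = true := by
            simp only [f, decide_eq_true_eq]
            rintro ⟨a, ha, -⟩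
            exact hy fun i => hGd (x i) (y i) (hx i) ⟨a i, ha i⟩
          simp only [dd', if_neg hy, mul_zero, if_neg h3]
      · have h3 : ¬ f (fun i => x i • y i) = true := by
          simp only [f, decide_eq_true_eq]
          rintro ⟨a, ha, -⟩
          refine hx fun i h0 => mul_ne_zero hV0 (mU_ee_ne hζ (a i)) ?_
          rw [← ha i, hVm, h0, zero_pow hj0.ne', zero_mul]
        simp only [dd, if_neg hx, zero_mul, if_neg h3]
    unfold realRank
    rw [h1]
    refine (Matrix.rank_mul_le_left _ _).trans ((Matrix.rank_mul_le_right _ _).trans ?_)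
    exact Matrix.rank_submatrix_le _ _ _
  · -- lower bound
    have h1 : (Matrix.of fun (a b : Fin n → Multiplicative (ZMod p)) =>
          if f₀ (a * b) = true then (1 : ℝ) else 0) =
        (Matrix.of fun (x : Fin n → M) (s : Fin n → S) =>
          if f (fun i => x i • s i) = true then (1 : ℝ) else 0).submatrix α β := by
      ext a b
      rw [Matrix.submatrix_apply, Matrix.of_apply, Matrix.of_apply, hαβ]
    unfold realRank
    rw [h1]
    exact Matrix.rank_submatrix_le _ _ _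

/-- (P2 for actions) -/
theorem root_imp_act {M S : Type} [Monoid M] [Fintype M] [Fintype S] [MulAction M S]
    {u u' : M → ℂ} {v w : S → ℂ} (hV : Vis u u' v w) (m₀ : M) (p : ℕ) [Fact p.Prime]
    (hm : IsPrimitiveRoot (u m₀) p) : LogRankAct M S → LogRankFor (Multiplicative (ZMod p)) := by
  rintro ⟨C, c, hC, hc, H⟩
  refine ⟨C, c, hC, hc, fun n f₀ hf₀ => ?_⟩
  obtain ⟨f, α, β, hf, hr⟩ := root_act hV m₀ p hm n f₀
  obtain ⟨z₀, hz₀⟩ := hf₀
  obtain ⟨π, hπ, hcost⟩ := H n f ⟨fun i => α z₀ i • β 1 i, by rw [hf, mul_one, hz₀]⟩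
  refine ⟨π.pull α β, fun x y => by rw [Protocol.pull_eval, hπ, hf], ?_⟩
  rw [Protocol.pull_cost, ← hr]
  exact hcost

/-- (T for actions) three cases -/
theorem three_cases_act (M S : Type) [Monoid M] [Fintype M] [Fintype S] [MulAction M S] :
    (∀ (u u' : M → ℂ) (v w : S → ℂ), Vis u u' v w → ∀ m, (u m = 0 ∨ u m = 1) ∧ u' m = 0) ∨
    (∃ (u u' : M → ℂ) (v w : S → ℂ) (m : M), Vis u u' v w ∧ u' m ≠ 0) ∨
    (∃ (u u' : M → ℂ) (v w : S → ℂ) (m : M) (p : ℕ), Vis u u' v w ∧ p.Prime ∧
      IsPrimitiveRoot (u m) p) := by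
  classical
  by_cases h1 : ∀ (u u' : M → ℂ) (v w : S → ℂ), Vis u u' v w →
      ∀ m, (u m = 0 ∨ u m = 1) ∧ u' m = 0
  · exact Or.inl h1
  · right
    simp only [not_forall] at h1
    obtain ⟨u, u', v, w, hV, m, hm⟩ := h1
    by_cases h4 : u' m = 0
    · right
      let χ : M →* ℂ := { toFun := u, map_one' := hV.u_one, map_mul' := hV.u_mul }
      have h5 : χ m ≠ 0 := fun h6 => hm ⟨Or.inl h6, h4⟩
      have h6 : χ m ≠ 1 := fun h7 => hm ⟨Or.inr h7, h4⟩
      obtain ⟨k, hk0, hk⟩ := monU_exponent χ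
      have h7 : χ m ^ k = 1 := (hk m).resolve_left h5
      have h8 : orderOf (χ m) ≠ 1 := fun h => h6 (orderOf_eq_one_iff.1 h)
      have h9 : 0 < orderOf (χ m) := orderOf_pos_iff.2 (isOfFinOrder_iff_pow_eq_one.2 ⟨k, hk0, h7⟩)
      obtain ⟨p, hp, hpd⟩ := Nat.exists_prime_and_dvd h8
      obtain ⟨j, hj⟩ := hpd
      refine ⟨u, u', v, w, m ^ j, p, hV, hp, ?_⟩
      have h11 : u (m ^ j) = χ m ^ j := map_pow χ m j
      rw [h11]
      have h10 := IsPrimitiveRoot.orderOf (χ m)
      exact h10.pow h9 (by rw [hj, mul_comm])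
    · exact Or.inl ⟨u, u', v, w, m, hV, h4⟩

end Pool.Agent.H20.Mon
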