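import Mathlib
import Pool.Agent.Lib_helper20.Mon.ActOne

set_option autoImplicit false

/-! Commutative images of some actions. -/

namespace Pool.Agent.H20.Mon.Act

/-- a monoid generated by idempotents acts by idempotents on every commutative image -/
theorem idem_of_closure {M S T : Type} [Monoid M] [MulAction M S] [MulAction M T]
    (hM : Submonoid.closure {e : M | e * e = e} = ⊤) {f : S → T} (hf : CommImage M f) (x : M) :
    ∀ t : T, x • x • t = x • t := by
  have hx : x ∈ Submonoid.closure {e : M | e * e = e} := by rw [hM]; trivial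
  induction hx using Submonoid.closure_induction with
  | mem e he => intro t; rw [smul_smul, he]
  | one => intro t; rw [one_smul, one_smul]
  | mul a b _ _ ha hb =>
    intro t
    simp only [mul_smul]
    rw [hf.comm b a (b • t), ha (b • b • t), hb t]

/-- a perfect group acts trivially on every commutative image -/
theorem perfect_triv {G S T : Type} [Group G] [MulAction G S] [MulAction G T]
    (hG : commutator G = ⊤) {f : S → T} (hf : CommImage G f) (x : G) (t : T) : x • t = t := by
  have h1 : commutator G ≤ (MulAction.toPermHom G T).ker := by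
    rw [commutator_def, Subgroup.commutator_le]
    intro a _ b _
    rw [MonoidHom.mem_ker]
    ext s
    have h2 := hf.comm a b (a⁻¹ • b⁻¹ • s)
    simp only [MulAction.toPermHom_apply, MulAction.toPerm_apply, Equiv.Perm.coe_one, id_eq,
      commutatorElement_def, mul_smul]
    rw [h2, smul_inv_smul, smul_inv_smul]
  have hx : x ∈ (MulAction.toPermHom G T).ker := h1 (by rw [hG]; trivial)
  have h2 := DFunLike.congr_fun (MonoidHom.mem_ker.1 hx) t
  exact h2

/-- a transitive action with a constant map -/
theorem const_triv {M S T : Type} [Monoid M] [MulAction M S] [MulAction M T] (k : M) (s₁ : S)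
    (hk : ∀ s : S, k • s = s₁) (hs : ∀ s : S, ∃ x : M, x • s₁ = s) {f : S → T}
    (hf : CommImage M f) : Subsingleton T := by
  have h : ∀ t : T, t = f s₁ := by
    intro t
    obtain ⟨s, rfl⟩ := hf.onto t
    obtain ⟨x, rfl⟩ := hs s
    calc f (x • s₁) = x • k • f s₁ := by rw [hf.map, ← hf.map k, hk]
      _ = k • x • f s₁ := hf.comm _ _ _
      _ = f s₁ := by rw [← hf.map, ← hf.map, hk]
  exact ⟨fun t t' => (h t).trans (h t').symm⟩

/-- all maps of a set into itself -/
theorem maps_triv {α T : Type} [MulAction (Function.End α) T] {f : α → T}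
    (hf : CommImage (Function.End α) f) (a : α) : Subsingleton T :=
  const_triv (M := Function.End α) (fun _ => a) a (fun _ => rfl) (fun s => ⟨fun _ => s, rfl⟩) hf

/-- all permutations of at least three letters -/
theorem perm_triv {α T : Type} [Fintype α] [DecidableEq α] (hα : 3 ≤ Fintype.card α)
    [MulAction (Equiv.Perm α) T] {f : α → T} (hf : CommImage (Equiv.Perm α) f) :
    Subsingleton T := by
  have key : ∀ a b : α, f a = f b := by
    intro a b
    by_cases hab : a = b
    · rw [hab]
    obtain ⟨c, hc⟩ : ∃ c, c ∉ ({a, b} : Finset α) := by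
      by_contra hcon
      push Not at hcon
      have h1 : Fintype.card α ≤ 2 := by
        rw [← Finset.card_univ]
        exact (Finset.card_le_card fun z _ => hcon z).trans Finset.card_le_two
      omega
    have hca : c ≠ a := fun h => hc (by simp [h])
    have hcb : c ≠ b := fun h => hc (by simp [h])
    -- `x = (a b)`, `y = (b c)` : `x y a = b`, `y x a = c`
    have h1 := hf.comm (Equiv.swap a b) (Equiv.swap b c) (f b)
    rw [← hf.map, ← hf.map, ← hf.map, ← hf.map] at h1
    have e1 : (Equiv.swap a b) • (Equiv.swap b c) • b = c := by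
      change Equiv.swap a b (Equiv.swap b c b) = c
      rw [Equiv.swap_apply_left, Equiv.swap_apply_of_ne_of_ne hca hcb]
    have e2 : (Equiv.swap b c) • (Equiv.swap a b) • b = a := by
      change Equiv.swap b c (Equiv.swap a b b) = a
      rw [Equiv.swap_apply_right, Equiv.swap_apply_of_ne_of_ne hab (Ne.symm hca)]
    rw [e1, e2] at h1
    have h3 := hf.comm (Equiv.swap a b) (Equiv.swap a c) (f a)
    rw [← hf.map, ← hf.map, ← hf.map, ← hf.map] at h3
    have e3 : (Equiv.swap a b) • (Equiv.swap a c) • a = c := by
      change Equiv.swap a b (Equiv.swap a c a) = c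
      rw [Equiv.swap_apply_left, Equiv.swap_apply_of_ne_of_ne hca hcb]
    have e4 : (Equiv.swap a c) • (Equiv.swap a b) • a = b := by
      change Equiv.swap a c (Equiv.swap a b a) = b
      rw [Equiv.swap_apply_left, Equiv.swap_apply_of_ne_of_ne (Ne.symm hab) (Ne.symm hcb)]
    rw [e3, e4] at h3
    exact h1.symm.trans h3
  refine ⟨fun t t' => ?_⟩
  obtain ⟨s, rfl⟩ := hf.onto t
  obtain ⟨s', rfl⟩ := hf.onto t'
  exact key s s'

/-- all endomorphisms of a vector space of dimension at least two -/
theorem end_triv {F V T : Type} [Field F] [AddCommGroup V] [Module F V]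
    (hV : ∀ s : V, ∃ t : V, t ∉ Submodule.span F {s}) [MulAction (Module.End F V) T] {f : V → T}
    (hf : CommImage (Module.End F V) f) : Subsingleton T := by
  have key : ∀ s : V, f s = f 0 := by
    intro s
    by_cases hs : s = 0
    · rw [hs]
    obtain ⟨t, ht⟩ := hV s
    have hli : LinearIndependent F ![s, t] := by
      rw [LinearIndependent.pair_iff]
      intro p q hpq
      have hq : q = 0 := by
        by_contra hq
        apply ht
        rw [Submodule.mem_span_singleton]
        refine ⟨-(q⁻¹ * p), ?_⟩
        have : t = q⁻¹ • (q • t) := by rw [smul_smul, inv_mul_cancel₀ hq, one_smul]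
        rw [this, eq_neg_of_add_eq_zero_right hpq, smul_neg, smul_smul, neg_smul]
      rw [hq, zero_smul, add_zero] at hpq
      exact ⟨(smul_eq_zero.1 hpq).resolve_right hs, hq⟩
    let B := Module.Basis.span hli
    have hB : ∀ i, (B i : V) = ![s, t] i := fun i => Module.Basis.coe_span_apply hli i
    have ext2 : ∀ a b : V, ∃ A : Module.End F V, A s = a ∧ A t = b := by
      intro a b
      obtain ⟨A, hA⟩ := LinearMap.exists_extend (B.constr F ![a, b])
      have hA' : ∀ i, A (![s, t] i) = ![a, b] i := by
        intro i
        rw [← hB]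
        have h1 := LinearMap.congr_fun hA (B i)
        rw [LinearMap.comp_apply, Submodule.subtype_apply, Module.Basis.constr_basis] at h1
        exact h1
      exact ⟨A, by simpa using hA' 0, by simpa using hA' 1⟩
    -- `D s = t`, `E t = s`, `E s = 0`
    obtain ⟨D, hD, -⟩ := ext2 t 0
    obtain ⟨E, hE1, hE2⟩ := ext2 0 s
    have h1 := hf.comm E D (f s)
    rw [← hf.map, ← hf.map, ← hf.map, ← hf.map] at h1
    have e1 : E • D • s = s := by
      change E (D s) = s
      rw [hD, hE2]
    have e2 : D • E • s = (0 : V) := by
      change D (E s) = 0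
      rw [hE1, map_zero]
    rw [e1, e2] at h1
    exact h1
  refine ⟨fun t t' => ?_⟩
  obtain ⟨s, rfl⟩ := hf.onto t
  obtain ⟨s', rfl⟩ := hf.onto t'
  rw [key s, key s']

end Pool.Agent.H20.Mon.Act
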