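import Mathlib
import Pool.Agent.Lib_helper10.MonU.Act
import Pool.Agent.Lib_helper20.Mon.Comm

set_option autoImplicit false

/-! Commutative images of `M` which depend only on the orbit map `x ↦ x • s₀`, `S = M • s₀`, and
visible pairs of the action on `S`. -/

namespace Pool.Agent.H20.Mon

open Pool.Agent.Lib_helper10.LogRank
open DualNumber

section vis

variable {M S : Type} [Monoid M] [MulAction M S]

/-- a multiplicative map to the dual numbers which depends only on `x • s₀` is visible -/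
theorem vis_of_map {s₀ : S} (hs₀ : ∀ s : S, ∃ x : M, x • s₀ = s) (ψ : M →* DualNumber ℂ)
    (hψ : ∀ x y : M, x • s₀ = y • s₀ → ψ x = ψ y) :
    ∃ v w : S → ℂ, Vis (fun x => (ψ x).fst) (fun x => (ψ x).snd) v w := by
  choose g hg using hs₀
  have hV : ∀ x s, ψ (g (x • s)) = ψ x * ψ (g s) := by
    intro x s
    rw [← map_mul]
    refine hψ _ _ ?_
    rw [hg, mul_smul, hg]
  refine ⟨fun s => (ψ (g s)).fst, fun s => (ψ (g s)).snd, ⟨s₀, ?_⟩, ?_, ?_⟩
  · have h1 : ψ (g s₀) = 1 := by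
      rw [← map_one ψ]
      refine hψ _ _ ?_
      rw [hg, one_smul]
    simp only [h1, TrivSqZeroExt.fst_one]
    exact one_ne_zero
  · intro x s
    simp only [hV, TrivSqZeroExt.fst_mul]
  · intro x s
    simp only [hV, TrivSqZeroExt.snd_mul, smul_eq_mul, MulOpposite.smul_eq_mul_unop,
      MulOpposite.unop_op]

/-- `v s₀ ≠ 0` -/
theorem Vis.ne_base {u u' : M → ℂ} {v w : S → ℂ} (hV : Vis u u' v w) {s₀ : S}
    (hs₀ : ∀ s : S, ∃ x : M, x • s₀ = s) : v s₀ ≠ 0 := by
  obtain ⟨s, hs⟩ := hV.ne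
  obtain ⟨x, rfl⟩ := hs₀ s
  rw [hV.hv] at hs
  exact right_ne_zero_of_mul hs

/-- the dual number of `x` depends only on `x • s₀` -/
theorem Vis.dual_dep {u u' : M → ℂ} {v w : S → ℂ} (hV : Vis u u' v w) {s₀ : S}
    (hs₀ : ∀ s : S, ∃ x : M, x • s₀ = s) (x y : M) (hxy : x • s₀ = y • s₀) :
    hV.dual x = hV.dual y := by
  have h0 := hV.ne_base hs₀
  have h1 : u x = u y := by
    refine mul_right_cancel₀ h0 ?_
    rw [← hV.hv, ← hV.hv, hxy]
  have h2 : u' x = u' y := by
    refine mul_right_cancel₀ h0 ?_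
    have h3 := hV.hw x s₀
    have h4 := hV.hw y s₀
    rw [hxy] at h3
    rw [h1] at h3
    linear_combination h4 - h3
  refine TrivSqZeroExt.ext ?_ ?_
  · rw [hV.dual_fst, hV.dual_fst, h1]
  · rw [hV.dual_snd, hV.dual_snd, h2]

/-- if all commutative images which depend only on `x • s₀` are semilattices, then all visible
pairs are trivial -/
theorem vis_idem {s₀ : S} (hs₀ : ∀ s : S, ∃ x : M, x • s₀ = s)
    (H : ∀ (C : Type) [CommMonoid C] (φ : M →* C), (∀ x y : M, x • s₀ = y • s₀ → φ x = φ y) →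
      ∀ m : M, φ m ^ 2 = φ m)
    {u u' : M → ℂ} {v w : S → ℂ} (hV : Vis u u' v w) (m : M) :
    (u m = 0 ∨ u m = 1) ∧ u' m = 0 := by
  have h1 := H (DualNumber ℂ) hV.dual (hV.dual_dep hs₀) m
  rw [pow_two] at h1
  have h2 : u m * u m = u m := by
    have := congrArg TrivSqZeroExt.fst h1
    rwa [TrivSqZeroExt.fst_mul, hV.dual_fst] at this
  have h3 : u m * u' m + u m * u' m = u' m := by
    have := congrArg TrivSqZeroExt.snd h1
    rw [TrivSqZeroExt.snd_mul, hV.dual_fst, hV.dual_snd] at this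
    simp only [smul_eq_mul, MulOpposite.smul_eq_mul_unop, MulOpposite.unop_op] at this
    linear_combination this
  have h4 : u m * (u m - 1) = 0 := by linear_combination h2
  rcases mul_eq_zero.1 h4 with h5 | h5
  · refine ⟨Or.inl h5, ?_⟩
    rw [h5] at h3
    linear_combination -h3
  · have h6 : u m = 1 := by linear_combination h5
    refine ⟨Or.inr h6, ?_⟩
    rw [h6] at h3
    linear_combination h3

end vis

section maps

variable {M : Type} [Monoid M] [Finite M] {C : Type} [CommMonoid C]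

theorem exists_eps_dep (φ : M →* C) (m : M) (h : ∀ k : ℕ, φ m ^ (k + 2) ≠ φ m) :
    ∃ (ψ : M →* DualNumber ℂ) (m' : M), (∀ x y, φ x = φ y → ψ x = ψ y) ∧ (ψ m').snd ≠ 0 := by
  have hfin : Finite (MonoidHom.mrange φ) := by
    have : (MonoidHom.mrange φ : Set C).Finite := by
      rw [MonoidHom.coe_mrange]; exact Set.finite_range φ
    exact this
  have hr : ¬ Reg (φ.mrangeRestrict m) := by
    intro hr
    obtain ⟨k, hk⟩ := hr.periodic
    exact h k (congrArg Subtype.val hk)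
  obtain ⟨ψ, c, hc⟩ := exists_eps hr
  obtain ⟨m', hm'⟩ := φ.mrangeRestrict_surjective c
  refine ⟨ψ.comp φ.mrangeRestrict, m', fun x y hxy => ?_, by simpa [hm'] using hc⟩
  have h1 : φ.mrangeRestrict x = φ.mrangeRestrict y := Subtype.ext hxy
  simp only [MonoidHom.coe_comp, Function.comp_apply, h1]

theorem exists_root_dep (φ : M →* C) (m : M) {k : ℕ} (hk : φ m ^ (k + 2) = φ m)
    (hm : φ m * φ m ≠ φ m) :
    ∃ (χ : M →* ℂ) (m' : M) (p : ℕ), (∀ x y, φ x = φ y → χ x = χ y) ∧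
      p.Prime ∧ p ∣ k + 1 ∧ IsPrimitiveRoot (χ m') p := by
  have hfin : Finite (MonoidHom.mrange φ) := by
    have : (MonoidHom.mrange φ : Set C).Finite := by
      rw [MonoidHom.coe_mrange]; exact Set.finite_range φ
    exact this
  obtain ⟨χ, h0, h1⟩ := exists_root (c := φ.mrangeRestrict m) (k := k) (Subtype.ext hk)
    (fun h => hm (congrArg Subtype.val h))
  set z : ℂ := χ (φ.mrangeRestrict m) with hz
  have hzk : z ^ (k + 1) = 1 := by
    have h2 : z ^ (k + 2) = z := by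
      rw [hz, ← map_pow]
      congr 1
      exact Subtype.ext hk
    have h3 : z * (z ^ (k + 1) - 1) = 0 := by
      rw [mul_sub, mul_one, ← pow_succ', h2, sub_self]
    rcases mul_eq_zero.1 h3 with h | h
    · exact absurd h h0
    · exact sub_eq_zero.1 h
  have hord : orderOf z ≠ 1 := by
    rw [Ne, orderOf_eq_one_iff]; exact h1
  obtain ⟨p, hp, hpd⟩ := Nat.exists_prime_and_dvd hord
  have hpk : p ∣ k + 1 := hpd.trans (orderOf_dvd_of_pow_eq_one hzk)
  obtain ⟨d, hd⟩ := hpd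
  have hpos : 0 < orderOf z :=
    orderOf_pos_iff.2 (isOfFinOrder_iff_pow_eq_one.2 ⟨k + 1, by omega, hzk⟩)
  have hprim : IsPrimitiveRoot z (orderOf z) := IsPrimitiveRoot.orderOf z
  refine ⟨χ.comp φ.mrangeRestrict, m ^ d, p, fun x y hxy => ?_, hp, hpk, ?_⟩
  · have h1 : φ.mrangeRestrict x = φ.mrangeRestrict y := Subtype.ext hxy
    simp only [MonoidHom.coe_comp, Function.comp_apply, h1]
  · have h5 : (χ.comp φ.mrangeRestrict) (m ^ d) = z ^ d := by rw [map_pow]; rfl
    rw [h5]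
    exact hprim.pow hpos (by rw [hd, mul_comm])

end maps

/-- Case 2: an element of a commutative image (depending only on `x • s₀`) which is none of its
powers `c ^ 2, c ^ 3, …` -/
theorem glue2 (M S : Type) [Monoid M] [Fintype M] [Fintype S] [MulAction M S] (s₀ : S)
    (hs₀ : ∀ s : S, ∃ x : M, x • s₀ = s) (C : Type) [CommMonoid C] (φ : M →* C)
    (hφ : ∀ x y : M, x • s₀ = y • s₀ → φ x = φ y) (m : M)
    (hm : ∀ k : ℕ, φ m ^ (k + 2) ≠ φ m) : LogRankAct M S ↔ LogRank := by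
  obtain ⟨ψ, m', hψ, hm'⟩ := exists_eps_dep φ m hm
  obtain ⟨v, w, hV⟩ := vis_of_map hs₀ ψ fun x y hxy => hψ x y (hφ x y hxy)
  exact univ_iff_act hV m' hm'

/-- Case 3: an element `c ≠ c ^ 2` of a commutative image (depending only on `x • s₀`) with
`c = c ^ (k + 2)` -/
theorem glue3 (M S : Type) [Monoid M] [Fintype M] [Fintype S] [MulAction M S] (s₀ : S)
    (hs₀ : ∀ s : S, ∃ x : M, x • s₀ = s) (C : Type) [CommMonoid C] (φ : M →* C)
    (hφ : ∀ x y : M, x • s₀ = y • s₀ → φ x = φ y) (m : M) (k : ℕ)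
    (h2 : φ m ^ 2 ≠ φ m) (hk : φ m ^ (k + 2) = φ m) :
    ∃ (p : ℕ) (_ : Fact p.Prime), p ∣ k + 1 ∧
      (LogRankAct M S → LogRankFor (Multiplicative (ZMod p))) := by
  obtain ⟨χ, m', p, hχ, hp, hpk, hroot⟩ := exists_root_dep φ m hk (by rwa [← pow_two])
  let ψ : M →* DualNumber ℂ :=
    { toFun := fun x => TrivSqZeroExt.inl (χ x)
      map_one' := by rw [map_one]; rfl
      map_mul' := fun x y => by rw [map_mul, TrivSqZeroExt.inl_mul] }
  obtain ⟨v, w, hV⟩ := vis_of_map hs₀ ψ fun x y hxy => by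
    change TrivSqZeroExt.inl (χ x) = TrivSqZeroExt.inl (χ y)
    rw [hχ x y (hφ x y hxy)]
  refine ⟨p, ⟨hp⟩, hpk, ?_⟩
  have : Fact p.Prime := ⟨hp⟩
  exact root_imp_act hV m' p (by simpa [ψ] using hroot)

end Pool.Agent.H20.Mon
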